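import Pool.Agent.U524.SN.PA
import Pool.Agent.U26.SG.Ht

/-!
# Large values: hyperbolic areas
-/

set_option autoImplicit false
open MeasureTheory Filter Topology ProbabilityTheory
open scoped ContDiff ENNReal

namespace Pool.Agent.U524.SN

open Pool.Agent.W745.RW (lap)
open Pool.Agent.N661.BR (MW lin IsStationary meas_eval)
open Pool.Agent.N661.BH (HP)
open Pool.Agent.U26.SB (ConvergesAlongH harea hm hm_fin hm_pos hm_univ hm_real u_meas conv_pt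
  fin_open)

section

variable {σ : ℕ → ℕ} {Ω : Set ℂ} {lam : ℕ → ℝ} {u : ℕ → ℂ → ℝ} {μ : Measure MW}
  [IsProbabilityMeasure μ]

theorem harea_G (hΩ : IsOpen Ω) (hHP : Ω ⊆ HP) (hne : Ω.Nonempty)
    (hA : IntegrableOn (fun z : ℂ => 1 / z.im ^ 2) Ω) (hu : ∀ n, ContDiffOn ℝ ∞ (u n) HP)
    (h : ConvergesAlongH σ Ω lam u μ) {G : Set ℝ} (hG : IsOpen G)
    (hμ : 0 < μ {f : MW | f 0 ∈ G}) :
    ∃ c : ℝ, 0 < c ∧ ∀ᶠ n in atTop, c ≤ harea {z | z ∈ Ω ∧ u (σ n) z ∈ G} := by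
  have hf := hm_fin hA
  have e0 : ∀ (τ : Fin 1 → ℝ) (f : MW), lin (fun _ : Fin 1 => (0 : ℂ)) τ f = τ 0 * f 0 := by
    intro τ f
    simp [lin]
  obtain ⟨c, hc, h1⟩ := fin_linG (ν := hm Ω) (hm_pos hΩ hHP hne) (μ := μ) (k := 1) (fun _ => 0)
    (fun _ => 1) (X := fun n z _ => u (σ n) z) (fun n _ => u_meas hΩ hHP hu _)
    (fun τ => by
      have h2 := conv_pt h (τ 0)
      simpa only [e0, Finset.univ_unique, Finset.sum_singleton, Fin.default_eq_zero] using h2)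
    hG (by simpa only [e0, one_mul] using hμ)
  refine ⟨c, hc, ?_⟩
  filter_upwards [h1] with n hn
  simp only [Finset.univ_unique, Finset.sum_singleton, one_mul, hm_real hΩ] at hn
  exact hn

theorem hint {Ω : Set ℂ} (g : ℂ → ℝ) :
    ∫ z, g z ∂(hm Ω) = ∫ z in Ω, g z * (1 / z.im ^ 2) := by
  unfold hm
  rw [integral_withDensity_eq_integral_toReal_smul Pool.Agent.U26.SB.hm_dens
    (Eventually.of_forall fun z => ENNReal.ofReal_lt_top)]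
  refine integral_congr_ae (Eventually.of_forall fun z => ?_)
  show (ENNReal.ofReal (1 / z.im ^ 2)).toReal • g z = _
  rw [ENNReal.toReal_ofReal (by positivity), smul_eq_mul, mul_comm]

theorem harea_trunc (hΩ : IsOpen Ω) (hHP : Ω ⊆ HP) (hne : Ω.Nonempty)
    (hA : IntegrableOn (fun z : ℂ => 1 / z.im ^ 2) Ω) (hu : ∀ n, ContDiffOn ℝ ∞ (u n) HP)
    (hs : IsStationary μ) (h : ConvergesAlongH σ Ω lam u μ) {M : ℝ}
    (hsm : Tendsto (fun n => harea {z | z ∈ Ω ∧ M < |u (σ n) z|}) atTop (𝓝 0))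
    {ε : ℝ} (hε : 0 < ε) :
    ∀ᶠ n in atTop, ∫ z in Ω, min (u (σ n) z ^ 2) (M ^ 2) * (1 / z.im ^ 2) ≤
      (M ^ 2 / 2 + ε) * harea Ω := by
  have hf := hm_fin hA
  have h1 := trunc_le (ν := hm Ω) (hm_pos hΩ hHP hne) (μ := μ) hs (X := fun n z => u (σ n) z)
    (fun n => u_meas hΩ hHP hu _) (fun τ => conv_pt h τ) (M := M) (by
      refine hsm.congr fun n => ?_
      rw [hm_real hΩ]
      rfl) hε
  filter_upwards [h1] with n hn
  rw [hm_univ hΩ, hint] at hn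
  exact hn

end

/-- **All quantum ergodic sequences**: the truncated mass -/
theorem qe_trunc_h {Ω : Set ℂ} (hΩ : IsOpen Ω) (hHP : Ω ⊆ HP) (hne : Ω.Nonempty)
    (hA : IntegrableOn (fun z : ℂ => 1 / z.im ^ 2) Ω)
    {lam : ℕ → ℝ} (hpos : ∀ n, 0 < lam n) (hlam : Tendsto lam atTop atTop)
    {u : ℕ → ℂ → ℝ} (hu : ∀ n, ContDiffOn ℝ ∞ (u n) HP)
    (heq : ∀ n, ∀ z ∈ HP, z.im ^ 2 * lap (u n) z + lam n * u n z = 0)
    (hqe : Pool.Agent.N661.BH.IsQuantumErgodic Ω lam u)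
    (M : ℝ) {ε : ℝ} (hε : 0 < ε) :
    ∃ δ : ℝ, 0 < δ ∧ ∀ᶠ n in atTop, harea {z | z ∈ Ω ∧ M < |u n z|} ≤ δ →
      ∫ z in Ω, min (u n z ^ 2) (M ^ 2) * (1 / z.im ^ 2) ≤ (M ^ 2 / 2 + ε) * harea Ω := by
  by_contra hcon
  push Not at hcon
  have hcon' : ∀ j : ℕ, ∃ᶠ n in atTop, harea {z | z ∈ Ω ∧ M < |u n z|} ≤ 1 / ((j : ℝ) + 1) ∧
      (M ^ 2 / 2 + ε) * harea Ω < ∫ z in Ω, min (u n z ^ 2) (M ^ 2) * (1 / z.im ^ 2) := fun j =>
    hcon _ (by positivity)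
  obtain ⟨τ, hτ, hτP⟩ := Filter.extraction_forall_of_frequently hcon'
  have hlam' : Tendsto (lam ∘ τ) atTop atTop := hlam.comp hτ.tendsto_atTop
  have hqe' : Pool.Agent.N661.BH.IsQuantumErgodic Ω (lam ∘ τ) (u ∘ τ) := fun φ hφ k =>
    (hqe φ hφ k).comp hτ.tendsto_atTop
  obtain ⟨σ, μ, hσ, hμp, hμ⟩ := Pool.Agent.U26.SG.hy Ω hΩ hHP hne hA (lam ∘ τ) (fun n => hpos _)
    hlam' (u ∘ τ) (fun n => hu _) (fun n => heq _) hqe'
  have hex : Pool.Agent.U26.SG.Exh μ := Pool.Agent.U26.SG.exh_hyp (lam := lam ∘ τ) (u := u ∘ τ)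
    hΩ hHP hne hA (fun n => hpos _) hlam' (fun n => hu _) (fun n => heq _) hqe' ⟨σ, hσ, hμ⟩
  have h1 := harea_trunc (lam := lam ∘ τ) (u := u ∘ τ) (M := M) hΩ hHP hne hA (fun n => hu _)
    hex.st hμ (by
      have h2 : Tendsto (fun n : ℕ => 1 / ((n : ℝ) + 1)) atTop (𝓝 0) :=
        tendsto_one_div_add_atTop_nhds_zero_nat
      refine tendsto_of_tendsto_of_tendsto_of_le_of_le tendsto_const_nhds
        (h2.comp hσ.tendsto_atTop) (fun n => ?_) fun n => ?_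
      · exact integral_nonneg fun z => by positivity
      · exact (hτP (σ n)).1) hε
  obtain ⟨n, hn⟩ := h1.exists
  exact absurd hn (not_le.2 (hτP (σ n)).2)

end Pool.Agent.U524.SN
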