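import Mathlib

/-! The inequality at the maximum. -/

set_option autoImplicit false
open Real

namespace Pool.Agent.U524.SN

theorem alg {η W w1 w2 e1 e2 Lη LW p q q1 q2 c s Q Qp Lq r : ℝ} (hη0 : 0 < η) (hη1 : η ≤ 1)
    (hr : 0 < r) (hQp : 0 < Qp) (hQ0 : 0 ≤ Q) (hQ : Q ≤ Qp) (hLq0 : 0 ≤ Lq)
    (hq : q1 ^ 2 + q2 ^ 2 ≤ Lq ^ 2) (hW : W = p ^ 2 + q ^ 2) (hF : Qp < η * W) (hc : 0 < c)
    (hsc : s ^ 2 + c ^ 2 = 1) (h1 : η * w1 + W * e1 = 0) (h2 : η * w2 + W * e2 = 0)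
    (he : e1 ^ 2 + e2 ^ 2 ≤ 16 * η / r ^ 2) (hLη : -(8 / r ^ 2) ≤ Lη)
    (hmax : η * LW + 2 * (e1 * w1 + e2 * w2) + W * Lη ≤ 0)
    (hineq : 2 * ((c ^ 2)⁻¹ * (W * (W - Q)) + s / c * (p * (w1 - q1) + q * (w2 - q2))) ≤ LW) :
    η * W * (1 - 2 / (r * √Qp)) ≤ Qp + Lq / (2 * √Qp) + 20 / r ^ 2 := by
  have hF0 : 0 < η * W := lt_trans hQp hF
  have hW0 : 0 < W := by
    by_contra h
    rw [not_lt] at h
    nlinarith
  have hWF : η * W ≤ W := by nlinarith
  set F : ℝ := η * W with hFd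
  have hc2 : 0 < c ^ 2 := by positivity
  have hr2 : 0 < r ^ 2 := by positivity
  -- A
  have hA : η * LW ≤ 40 * W / r ^ 2 := by
    have k1 : η * (η * LW + 2 * (e1 * w1 + e2 * w2) + W * Lη) ≤ 0 :=
      mul_nonpos_of_nonneg_of_nonpos hη0.le hmax
    have k2 : η * (2 * (e1 * w1 + e2 * w2)) = -(2 * W * (e1 ^ 2 + e2 ^ 2)) := by
      have a1 : η * w1 = -(W * e1) := by linarith
      have a2 : η * w2 = -(W * e2) := by linarith
      calc η * (2 * (e1 * w1 + e2 * w2)) = 2 * (e1 * (η * w1) + e2 * (η * w2)) := by ring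
        _ = _ := by rw [a1, a2]; ring
    have k3 : 2 * W * (e1 ^ 2 + e2 ^ 2) ≤ 2 * W * (16 * η / r ^ 2) :=
      mul_le_mul_of_nonneg_left he (by positivity)
    have k4 : η * (W * -(8 / r ^ 2)) ≤ η * (W * Lη) :=
      mul_le_mul_of_nonneg_left (mul_le_mul_of_nonneg_left hLη hW0.le) hη0.le
    have k5 : η * (η * LW) ≤ η * (40 * W / r ^ 2) := by
      have : η * (40 * W / r ^ 2) = 2 * W * (16 * η / r ^ 2) - η * (W * -(8 / r ^ 2)) := by
        field_simp
        ring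
      rw [this]
      nlinarith
    exact le_of_mul_le_mul_left k5 hη0
  -- B
  have hB : 2 * ((c ^ 2)⁻¹ * (W * (F - η * Q)) -
      s / c * (W * (p * e1 + q * e2) + η * (p * q1 + q * q2))) ≤ η * LW := by
    have k1 := mul_le_mul_of_nonneg_left hineq hη0.le
    refine le_trans (le_of_eq ?_) k1
    have a1 : η * w1 = -(W * e1) := by linarith
    have a2 : η * w2 = -(W * e2) := by linarith
    have k2 : η * (2 * ((c ^ 2)⁻¹ * (W * (W - Q)) + s / c * (p * (w1 - q1) + q * (w2 - q2)))) =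
        2 * ((c ^ 2)⁻¹ * (W * (η * W - η * Q)) +
          s / c * (p * (η * w1 - η * q1) + q * (η * w2 - η * q2))) := by ring
    rw [k2, a1, a2, hFd]
    ring
  -- C
  have hC : |p * e1 + q * e2| ≤ 4 * √F / r := by
    refine abs_le_of_sq_le_sq ?_ (by positivity)
    have k1 : (p * e1 + q * e2) ^ 2 ≤ W * (e1 ^ 2 + e2 ^ 2) := by
      rw [hW]; nlinarith [sq_nonneg (p * e2 - q * e1)]
    have k2 : W * (e1 ^ 2 + e2 ^ 2) ≤ W * (16 * η / r ^ 2) := mul_le_mul_of_nonneg_left he hW0.le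
    have k3 : (4 * √F / r) ^ 2 = W * (16 * η / r ^ 2) := by
      rw [div_pow, mul_pow, Real.sq_sqrt hF0.le, hFd]
      ring
    rw [k3]
    exact k1.trans k2
  have hD : |p * q1 + q * q2| ≤ √W * Lq := by
    refine abs_le_of_sq_le_sq ?_ (by positivity)
    have k1 : (p * q1 + q * q2) ^ 2 ≤ W * (q1 ^ 2 + q2 ^ 2) := by
      rw [hW]; nlinarith [sq_nonneg (p * q2 - q * q1)]
    have k2 : W * (q1 ^ 2 + q2 ^ 2) ≤ W * Lq ^ 2 := mul_le_mul_of_nonneg_left hq hW0.le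
    rw [mul_pow, Real.sq_sqrt hW0.le]
    exact k1.trans k2
  have hE : |W * (p * e1 + q * e2) + η * (p * q1 + q * q2)| ≤ W * (4 * √F / r) + √W * Lq := by
    refine (abs_add_le _ _).trans ?_
    rw [abs_mul, abs_mul, abs_of_pos hW0, abs_of_pos hη0]
    refine add_le_add (mul_le_mul_of_nonneg_left hC hW0.le) ?_
    calc η * |p * q1 + q * q2| ≤ 1 * |p * q1 + q * q2| :=
          mul_le_mul_of_nonneg_right hη1 (abs_nonneg _)
      _ ≤ √W * Lq := by rw [one_mul]; exact hD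
  have hsc' : |s| * c ≤ 1 / 2 := by
    have : (|s| - c) ^ 2 ≥ 0 := sq_nonneg _
    have h3 : |s| ^ 2 = s ^ 2 := sq_abs s
    nlinarith
  have hG : W * (F - η * Q) ≤ 20 * W / r ^ 2 + 1 / 2 * (W * (4 * √F / r) + √W * Lq) := by
    have k1 : 2 * (W * (F - η * Q)) ≤ c ^ 2 * (40 * W / r ^ 2) +
        2 * ((s * c) * (W * (p * e1 + q * e2) + η * (p * q1 + q * q2))) := by
      have k0 := mul_le_mul_of_nonneg_left (hB.trans hA) hc2.le
      have e : c ^ 2 * (2 * ((c ^ 2)⁻¹ * (W * (F - η * Q)) -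
          s / c * (W * (p * e1 + q * e2) + η * (p * q1 + q * q2)))) =
          2 * (W * (F - η * Q)) -
            2 * ((s * c) * (W * (p * e1 + q * e2) + η * (p * q1 + q * q2))) := by
        have h3 : c ≠ 0 := hc.ne'
        field_simp
      rw [e] at k0
      linarith
    have k2 : c ^ 2 * (40 * W / r ^ 2) ≤ 1 * (40 * W / r ^ 2) :=
      mul_le_mul_of_nonneg_right (by nlinarith [sq_nonneg s]) (by positivity)
    have k3 : (s * c) * (W * (p * e1 + q * e2) + η * (p * q1 + q * q2)) ≤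
        1 / 2 * (W * (4 * √F / r) + √W * Lq) := by
      refine (le_abs_self _).trans ?_
      rw [abs_mul, abs_mul, abs_of_pos hc]
      exact mul_le_mul hsc' hE (abs_nonneg _) (by norm_num)
    have k4 : 40 * W / r ^ 2 = 2 * (20 * W / r ^ 2) := by ring
    linarith
  have hsW : 0 < √W := Real.sqrt_pos.2 hW0
  have hsQ : 0 < √Qp := Real.sqrt_pos.2 hQp
  have hWW : √W * √W = W := Real.mul_self_sqrt hW0.le
  have hH : F - η * Q ≤ 20 / r ^ 2 + 2 * √F / r + Lq / (2 * √W) := by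
    refine le_of_mul_le_mul_left ?_ hW0
    refine hG.trans (le_of_eq ?_)
    have k1 : √W * Lq = W * (Lq / √W) := by
      rw [mul_div_assoc']
      rw [eq_div_iff hsW.ne']
      calc √W * Lq * √W = (√W * √W) * Lq := by ring
        _ = W * Lq := by rw [hWW]
    rw [k1]
    field_simp
    ring
  have hI : √F ≤ F / √Qp := by
    rw [le_div_iff₀ hsQ]
    calc √F * √Qp ≤ √F * √F := mul_le_mul_of_nonneg_left (Real.sqrt_le_sqrt hF.le) (Real.sqrt_nonneg _)
      _ = F := Real.mul_self_sqrt hF0.le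
  have hJ : Lq / (2 * √W) ≤ Lq / (2 * √Qp) := by
    refine div_le_div_of_nonneg_left hLq0 (by positivity) ?_
    have : √Qp ≤ √W := Real.sqrt_le_sqrt (hF.le.trans hWF)
    linarith
  have hK : η * Q ≤ Qp := by
    calc η * Q ≤ 1 * Q := mul_le_mul_of_nonneg_right hη1 hQ0
      _ ≤ Qp := by rw [one_mul]; exact hQ
  have hL : 2 * √F / r ≤ F * (2 / (r * √Qp)) := by
    have : F * (2 / (r * √Qp)) = 2 * (F / √Qp) / r := by
      field_simp
    rw [this]
    gcongr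
  have : F * (1 - 2 / (r * √Qp)) = F - F * (2 / (r * √Qp)) := by ring
  rw [this]
  linarith

end Pool.Agent.U524.SN
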