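import Pool.Agent.U524.SN.Bern
import Pool.Agent.U524.SN.Alg

/-! The sharp gradient estimate at the centre of a disc. -/

set_option autoImplicit false
open MeasureTheory Filter Topology Complex Set
open scoped ContDiff

namespace Pool.Agent.U524.SN

noncomputable section

variable {B : Set ℂ}

/-- the cutoff -/
def cut (z₀ : ℂ) (r : ℝ) (z : ℂ) : ℝ :=
  1 - ((z.re - z₀.re) * (z.re - z₀.re) + (z.im - z₀.im) * (z.im - z₀.im)) * (r ^ 2)⁻¹

theorem re_smooth (a : ℝ) : ContDiff ℝ ∞ fun z : ℂ => z.re - a :=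
  (reCLM.contDiff).sub contDiff_const

theorem im_smooth (a : ℝ) : ContDiff ℝ ∞ fun z : ℂ => z.im - a :=
  (imCLM.contDiff).sub contDiff_const

theorem D_re (a : ℝ) (v z : ℂ) : D v (fun z : ℂ => z.re - a) z = v.re := by
  unfold D
  have h : HasFDerivAt (fun z : ℂ => z.re - a) (reCLM : ℂ →L[ℝ] ℝ) z :=
    (reCLM.hasFDerivAt).sub_const a
  rw [h.fderiv]
  rfl

theorem D_im (a : ℝ) (v z : ℂ) : D v (fun z : ℂ => z.im - a) z = v.im := by
  unfold D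
  have h : HasFDerivAt (fun z : ℂ => z.im - a) (imCLM : ℂ →L[ℝ] ℝ) z :=
    (imCLM.hasFDerivAt).sub_const a
  rw [h.fderiv]
  rfl

theorem D_const (c : ℝ) (v z : ℂ) : D v (fun _ : ℂ => c) z = 0 := by
  unfold D
  simp

theorem cut_smooth (z₀ : ℂ) (r : ℝ) : ContDiff ℝ ∞ (cut z₀ r) :=
  contDiff_const.sub ((((re_smooth _).mul (re_smooth _)).add
    ((im_smooth _).mul (im_smooth _))).mul contDiff_const)

theorem D_cut (z₀ : ℂ) (r : ℝ) (v z : ℂ) : D v (cut z₀ r) z =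
    -(2 * ((z.re - z₀.re) * v.re + (z.im - z₀.im) * v.im) * (r ^ 2)⁻¹) := by
  have d1 : ∀ z, DifferentiableAt ℝ (fun z : ℂ => z.re - z₀.re) z :=
    fun z => (re_smooth z₀.re).differentiable (by simp) z
  have d2 : ∀ z, DifferentiableAt ℝ (fun z : ℂ => z.im - z₀.im) z :=
    fun z => (im_smooth z₀.im).differentiable (by simp) z
  have e1 := D_mul (d1 z) (d1 z) v
  have e2 := D_mul (d2 z) (d2 z) v
  have e3 := D_add ((d1 z).mul (d1 z)) ((d2 z).mul (d2 z)) v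
  have e4 := D_mul (f := fun z : ℂ => (z.re - z₀.re) * (z.re - z₀.re) +
    (z.im - z₀.im) * (z.im - z₀.im)) (g := fun _ => (r ^ 2)⁻¹)
    (((d1 z).mul (d1 z)).add ((d2 z).mul (d2 z))) (differentiableAt_const _) v
  have e5 := D_sub (f := fun _ => (1 : ℝ)) (g := fun z : ℂ => ((z.re - z₀.re) * (z.re - z₀.re) +
    (z.im - z₀.im) * (z.im - z₀.im)) * (r ^ 2)⁻¹) (differentiableAt_const _)
    ((((d1 z).mul (d1 z)).add ((d2 z).mul (d2 z))).mul (differentiableAt_const _)) v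
  have e0 : D v (cut z₀ r) z = D v (fun z : ℂ => 1 - ((z.re - z₀.re) * (z.re - z₀.re) +
    (z.im - z₀.im) * (z.im - z₀.im)) * (r ^ 2)⁻¹) z := rfl
  have e3' : D v (fun z : ℂ => (z.re - z₀.re) * (z.re - z₀.re) +
    (z.im - z₀.im) * (z.im - z₀.im)) z = D v (fun z : ℂ => (z.re - z₀.re) * (z.re - z₀.re)) z +
      D v (fun z : ℂ => (z.im - z₀.im) * (z.im - z₀.im)) z := e3
  rw [e0, e5, e4, D_const, D_const, e3', e1, e2, D_re, D_im]
  ring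

theorem W_cut (z₀ : ℂ) (r : ℝ) (z : ℂ) : W (cut z₀ r) z =
    4 * ((z.re - z₀.re) ^ 2 + (z.im - z₀.im) ^ 2) * ((r ^ 2)⁻¹) ^ 2 := by
  unfold W
  rw [D_cut, D_cut]
  simp
  ring

theorem L_cut (z₀ : ℂ) (r : ℝ) (z : ℂ) : L (cut z₀ r) z = -(4 * (r ^ 2)⁻¹) := by
  have h1 : ∀ v : ℂ, D v (cut z₀ r) = fun z : ℂ =>
      -(2 * ((z.re - z₀.re) * v.re + (z.im - z₀.im) * v.im) * (r ^ 2)⁻¹) :=
    fun v => funext fun z => D_cut z₀ r v z
  have d1 : HasFDerivAt (fun z : ℂ => z.re - z₀.re) (reCLM : ℂ →L[ℝ] ℝ) z :=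
    (reCLM.hasFDerivAt).sub_const _
  have d2 : HasFDerivAt (fun z : ℂ => z.im - z₀.im) (imCLM : ℂ →L[ℝ] ℝ) z :=
    (imCLM.hasFDerivAt).sub_const _
  have h2 : ∀ v : ℂ, D v (D v (cut z₀ r)) z = -(2 * (v.re * v.re + v.im * v.im) * (r ^ 2)⁻¹) := by
    intro v
    rw [h1 v]
    unfold D
    have h3 := ((((d1.mul_const v.re).add (d2.mul_const v.im)).const_mul 2).mul_const
      (r ^ 2)⁻¹).neg
    have h4 : HasFDerivAt (fun z : ℂ =>
      -(2 * ((z.re - z₀.re) * v.re + (z.im - z₀.im) * v.im) * (r ^ 2)⁻¹)) _ z := h3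
    rw [h4.fderiv]
    simp
    ring
  unfold L
  rw [h2 1, h2 I]
  simp
  ring

/-- **The sharp gradient estimate at the centre of a disc.** -/
theorem ball (hB : IsOpen B) {z₀ : ℂ} {r : ℝ} (hr : 0 < r) (hball : Metric.closedBall z₀ r ⊆ B)
    {v Q : ℂ → ℝ} (hv : ContDiffOn ℝ ∞ v B) (hQ : ContDiffOn ℝ ∞ Q B)
    (hv1 : ∀ z ∈ B, |v z| < 1) (heq : ∀ z ∈ B, L v z = -(Q z * v z)) {Qp Lq : ℝ}
    (hQp : 0 < Qp) (hLq : 0 ≤ Lq) (hQ0 : ∀ z ∈ B, 0 ≤ Q z)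
    (hQ1 : ∀ z ∈ Metric.closedBall z₀ r, Q z ≤ Qp)
    (hQ2 : ∀ z ∈ Metric.closedBall z₀ r, W Q z ≤ Lq ^ 2) :
    W v z₀ * (1 - 2 / (r * √Qp)) ≤ (1 - v z₀ ^ 2) * (Qp + Lq / (2 * √Qp) + 20 / r ^ 2) := by
  set φ : ℂ → ℝ := fun z => Real.arcsin (v z) with hφd
  have hz₀ : z₀ ∈ B := hball (Metric.mem_closedBall_self hr.le)
  have hφ : ContDiffOn ℝ ∞ φ B := by
    intro z hz
    have h1 := abs_lt.1 (hv1 z hz)
    have h2 : ContDiffAt ℝ ∞ Real.arcsin (v z) :=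
      Real.contDiffAt_arcsin (by linarith [h1.1]) (by linarith [h1.2])
    exact h2.comp_contDiffWithinAt z (hv z hz)
  have hs : ∀ z ∈ B, v z = Real.sin (φ z) := by
    intro z hz
    have h1 := abs_lt.1 (hv1 z hz)
    exact (Real.sin_arcsin h1.1.le h1.2.le).symm
  have hc : ∀ z ∈ B, 0 < Real.cos (φ z) := by
    intro z hz
    have h1 := abs_lt.1 (hv1 z hz)
    rw [hφd]
    simp only [Real.cos_arcsin]
    exact Real.sqrt_pos.2 (by nlinarith [h1.1, h1.2])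
  have hW0 : ∀ z, 0 ≤ W φ z := fun z => by unfold W; positivity
  have hsQ : 0 < √Qp := Real.sqrt_pos.2 hQp
  have hcone : 0 ≤ 1 - v z₀ ^ 2 := by
    have h1 := abs_lt.1 (hv1 z₀ hz₀)
    nlinarith [h1.1, h1.2]
  have hRHS : Qp ≤ Qp + Lq / (2 * √Qp) + 20 / r ^ 2 := by
    have : 0 ≤ Lq / (2 * √Qp) + 20 / r ^ 2 := by positivity
    linarith
  have hfac : 1 - 2 / (r * √Qp) ≤ 1 := by
    have : 0 ≤ 2 / (r * √Qp) := by positivity
    linarith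
  -- reduction to `W φ`
  suffices hmain : W φ z₀ * (1 - 2 / (r * √Qp)) ≤ Qp + Lq / (2 * √Qp) + 20 / r ^ 2 by
    rw [grad_v hB hφ hs hz₀, mul_assoc]
    exact mul_le_mul_of_nonneg_left hmain hcone
  set F : ℂ → ℝ := fun z => cut z₀ r z ^ 2 * W φ z with hFd
  have hη : ContDiff ℝ ∞ fun z => cut z₀ r z ^ 2 := (cut_smooth z₀ r).pow 2
  have hWs : ContDiffOn ℝ ∞ (W φ) B := W_smooth hB hφ
  have hFs : ContDiffOn ℝ ∞ F B := hη.contDiffOn.mul hWs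
  have hcut0 : cut z₀ r z₀ = 1 := by
    unfold cut
    ring
  have hF0 : F z₀ = W φ z₀ := by
    show cut z₀ r z₀ ^ 2 * W φ z₀ = W φ z₀
    rw [hcut0]
    ring
  obtain ⟨x, hx, hxm⟩ := (isCompact_closedBall z₀ r).exists_isMaxOn
    (Metric.nonempty_closedBall.2 hr.le) (hFs.continuousOn.mono hball)
  have hle : W φ z₀ ≤ F x := by
    rw [← hF0]
    exact hxm (Metric.mem_closedBall_self hr.le)
  by_cases hcase : F x ≤ Qp
  · calc W φ z₀ * (1 - 2 / (r * √Qp)) ≤ W φ z₀ * 1 := mul_le_mul_of_nonneg_left hfac (hW0 z₀)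
      _ ≤ Qp := by rw [mul_one]; exact hle.trans hcase
      _ ≤ _ := hRHS
  rw [not_le] at hcase
  have hxB : x ∈ B := hball hx
  set ρ2 : ℝ := (x.re - z₀.re) ^ 2 + (x.im - z₀.im) ^ 2 with hρ2
  have hr2 : 0 < r ^ 2 := by positivity
  have hρr : ρ2 ≤ r ^ 2 := by
    have h1 : ‖x - z₀‖ ≤ r := mem_closedBall_iff_norm.1 hx
    have h2 : ‖x - z₀‖ ^ 2 = ρ2 := by
      rw [Complex.sq_norm, Complex.normSq_apply, hρ2]
      simp only [Complex.sub_re, Complex.sub_im]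
      ring
    rw [← h2]
    exact pow_le_pow_left₀ (norm_nonneg _) h1 2
  have hρ0 : 0 ≤ ρ2 := by positivity
  have hcutx : cut z₀ r x = 1 - ρ2 * (r ^ 2)⁻¹ := by
    unfold cut
    rw [hρ2]
    ring
  have hq1 : ρ2 * (r ^ 2)⁻¹ ≤ 1 := by
    rw [← div_eq_mul_inv, div_le_one hr2]
    exact hρr
  have hq0 : 0 ≤ ρ2 * (r ^ 2)⁻¹ := by positivity
  have hcx0 : 0 ≤ cut z₀ r x := by rw [hcutx]; linarith
  have hcx1 : cut z₀ r x ≤ 1 := by rw [hcutx]; linarith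
  have hcxpos : 0 < cut z₀ r x := by
    refine lt_of_le_of_ne hcx0 fun h => ?_
    have : F x = 0 := by
      show cut z₀ r x ^ 2 * W φ x = 0
      rw [← h]; ring
    linarith
  have hxball : x ∈ Metric.ball z₀ r := by
    by_contra h
    rw [Metric.mem_ball, not_lt, dist_eq_norm] at h
    have h2 : ‖x - z₀‖ ^ 2 = ρ2 := by
      rw [Complex.sq_norm, Complex.normSq_apply, hρ2]
      simp only [Complex.sub_re, Complex.sub_im]
      ring
    have h3 : r ^ 2 ≤ ρ2 := by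
      rw [← h2]
      exact pow_le_pow_left₀ hr.le h 2
    have h4 : 1 ≤ ρ2 * (r ^ 2)⁻¹ := by
      rw [← div_eq_mul_inv, le_div_iff₀ hr2]
      linarith
    rw [hcutx] at hcxpos
    linarith
  have hlm : IsLocalMax F x := by
    filter_upwards [Metric.isOpen_ball.mem_nhds hxball] with y hy
    exact hxm (Metric.ball_subset_closedBall hy)
  have hηs : ContDiffOn ℝ ∞ (fun z => cut z₀ r z ^ 2) B := hη.contDiffOn
  have hcd : ∀ z ∈ B, DifferentiableAt ℝ (cut z₀ r) z :=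
    fun z _ => (cut_smooth z₀ r).differentiable (by simp) z
  -- derivatives of the cutoff
  have e1 : ∀ a, D a (fun z => cut z₀ r z ^ 2) x = 2 * (cut z₀ r x * D a (cut z₀ r) x) :=
    fun a => D_sq hcd a hxB
  have eL : L (fun z => cut z₀ r z ^ 2) x = 2 * W (cut z₀ r) x + 2 * (cut z₀ r x * L (cut z₀ r) x) :=
    L_sq hB (cut_smooth z₀ r).contDiffOn hxB
  have hm1 : ∀ a, cut z₀ r x ^ 2 * D a (W φ) x + W φ x * D a (fun z => cut z₀ r z ^ 2) x = 0 := by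
    intro a
    have h1 := (max_test hB hFs hxB hlm a).1
    have h2 := D_mul (diffAt hB hηs hxB) (diffAt hB hWs hxB) a
    have h3 : D a F x = cut z₀ r x ^ 2 * D a (W φ) x + D a (fun z => cut z₀ r z ^ 2) x * W φ x := h2
    rw [h1] at h3
    linarith
  have hm2 : cut z₀ r x ^ 2 * L (W φ) x + 2 * (D 1 (fun z => cut z₀ r z ^ 2) x * D 1 (W φ) x +
      D I (fun z => cut z₀ r z ^ 2) x * D I (W φ) x) + W φ x * L (fun z => cut z₀ r z ^ 2) x ≤ 0 := by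
    have h1 := L_nonpos hB hFs hxB hlm
    have h2 := L_mul hB hηs hWs hxB
    have h3 : L F x = _ := h2
    rw [h3] at h1
    exact h1
  have hWc := W_cut z₀ r x
  have hLc := L_cut z₀ r x
  have he : D 1 (fun z => cut z₀ r z ^ 2) x ^ 2 + D I (fun z => cut z₀ r z ^ 2) x ^ 2 ≤
      16 * cut z₀ r x ^ 2 / r ^ 2 := by
    rw [e1 1, e1 I]
    have k1 : (2 * (cut z₀ r x * D 1 (cut z₀ r) x)) ^ 2 + (2 * (cut z₀ r x * D I (cut z₀ r) x)) ^ 2 =
        4 * cut z₀ r x ^ 2 * W (cut z₀ r) x := by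
      unfold W
      ring
    rw [k1, hWc, ← hρ2]
    have k2 : 4 * cut z₀ r x ^ 2 * (4 * ρ2 * (r ^ 2)⁻¹ ^ 2) =
        16 * cut z₀ r x ^ 2 * (r ^ 2)⁻¹ * (ρ2 * (r ^ 2)⁻¹) := by ring
    rw [k2, div_eq_mul_inv]
    have k3 : 0 ≤ 16 * cut z₀ r x ^ 2 * (r ^ 2)⁻¹ := by positivity
    calc 16 * cut z₀ r x ^ 2 * (r ^ 2)⁻¹ * (ρ2 * (r ^ 2)⁻¹) ≤
        16 * cut z₀ r x ^ 2 * (r ^ 2)⁻¹ * 1 := mul_le_mul_of_nonneg_left hq1 k3
      _ = _ := by ring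
  have hLη : -(8 / r ^ 2) ≤ L (fun z => cut z₀ r z ^ 2) x := by
    rw [eL, hWc, hLc, ← hρ2]
    have k1 : 0 ≤ 2 * (4 * ρ2 * (r ^ 2)⁻¹ ^ 2) := by positivity
    have k2 : cut z₀ r x * (r ^ 2)⁻¹ ≤ 1 * (r ^ 2)⁻¹ :=
      mul_le_mul_of_nonneg_right hcx1 (by positivity)
    rw [div_eq_mul_inv]
    nlinarith
  have hsc := Real.sin_sq_add_cos_sq (φ x)
  have hin := W_ineq hB hφ hQ hs hc heq hxB
  rw [Real.tan_eq_sin_div_cos] at hin
  have hQx := hQ2 x hx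
  have hfin := alg (η := cut z₀ r x ^ 2) (W := W φ x) (w1 := D 1 (W φ) x) (w2 := D I (W φ) x)
    (e1 := D 1 (fun z => cut z₀ r z ^ 2) x) (e2 := D I (fun z => cut z₀ r z ^ 2) x)
    (Lη := L (fun z => cut z₀ r z ^ 2) x) (LW := L (W φ) x) (p := D 1 φ x) (q := D I φ x)
    (q1 := D 1 Q x) (q2 := D I Q x) (c := Real.cos (φ x)) (s := Real.sin (φ x)) (Q := Q x)
    (Qp := Qp) (Lq := Lq) (r := r) (by positivity) (pow_le_one₀ hcx0 hcx1) hr hQp (hQ0 x hxB)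
    (hQ1 x hx) hLq hQx rfl hcase (hc x hxB) hsc (hm1 1) (hm1 I) he hLη hm2 hin
  have hfin' : F x * (1 - 2 / (r * √Qp)) ≤ Qp + Lq / (2 * √Qp) + 20 / r ^ 2 := hfin
  rcases le_or_gt 0 (1 - 2 / (r * √Qp)) with h | h
  · exact (mul_le_mul_of_nonneg_right hle h).trans hfin'
  · have k1 : W φ z₀ * (1 - 2 / (r * √Qp)) ≤ 0 :=
      mul_nonpos_of_nonneg_of_nonpos (hW0 z₀) h.le
    linarith

end

end Pool.Agent.U524.SN
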