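import Pool.Agent.U524.SN.Cal

/-! The local sharp gradient estimate for solutions of `Δv = -Q v` with `|v| < 1`. -/

set_option autoImplicit false
open MeasureTheory Filter Topology Complex Set
open scoped ContDiff

namespace Pool.Agent.U524.SN

noncomputable section

variable {B : Set ℂ} {f g : ℂ → ℝ}

theorem L_mul (hB : IsOpen B) (hf : ContDiffOn ℝ ∞ f B) (hg : ContDiffOn ℝ ∞ g B) {z : ℂ}
    (hz : z ∈ B) : L (fun z => f z * g z) z =
      f z * L g z + 2 * (D 1 f z * D 1 g z + D I f z * D I g z) + g z * L f z := by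
  have key : ∀ v, D v (D v (fun z => f z * g z)) z =
      f z * D v (D v g) z + 2 * (D v f z * D v g z) + g z * D v (D v f) z := by
    intro v
    have h1 : ∀ y ∈ B, D v (fun z => f z * g z) y = f y * D v g y + D v f y * g y :=
      fun y hy => D_mul (diffAt hB hf hy) (diffAt hB hg hy) v
    rw [D_congr hB h1 v hz]
    have s1 := diffAt hB hf hz
    have s2 := diffAt hB hg hz
    have s3 := diffAt hB (D_smooth hB hf v) hz
    have s4 := diffAt hB (D_smooth hB hg v) hz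
    rw [D_add (f := fun y => f y * D v g y) (g := fun y => D v f y * g y) (s1.mul s4) (s3.mul s2),
      D_mul s1 s4, D_mul s3 s2]
    ring
  unfold L
  rw [key 1, key I]
  ring

theorem D_sq (hf : ∀ z ∈ B, DifferentiableAt ℝ f z) (v : ℂ) {z : ℂ} (hz : z ∈ B) :
    D v (fun z => f z ^ 2) z = 2 * (f z * D v f z) := by
  have h : (fun z => f z ^ 2) = fun z => f z * f z := by
    funext y; ring
  rw [h, D_mul (hf z hz) (hf z hz)]
  ring

theorem L_sq (hB : IsOpen B) (hf : ContDiffOn ℝ ∞ f B) {z : ℂ} (hz : z ∈ B) :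
    L (fun z => f z ^ 2) z = 2 * (D 1 f z ^ 2 + D I f z ^ 2) + 2 * (f z * L f z) := by
  have h : (fun z => f z ^ 2) = fun z => f z * f z := by
    funext y; ring
  rw [h, L_mul hB hf hf hz]
  ring

theorem L_add (hB : IsOpen B) (hf : ContDiffOn ℝ ∞ f B) (hg : ContDiffOn ℝ ∞ g B) {z : ℂ}
    (hz : z ∈ B) : L (fun z => f z + g z) z = L f z + L g z := by
  have key : ∀ v, D v (D v (fun z => f z + g z)) z = D v (D v f) z + D v (D v g) z := by
    intro v
    have h1 : ∀ y ∈ B, D v (fun z => f z + g z) y = D v f y + D v g y :=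
      fun y hy => D_add (diffAt hB hf hy) (diffAt hB hg hy) v
    rw [D_congr hB h1 v hz]
    exact D_add (diffAt hB (D_smooth hB hf v) hz) (diffAt hB (D_smooth hB hg v) hz) v
  unfold L
  rw [key 1, key I]
  ring

/-- the square of the gradient -/
def W (f : ℂ → ℝ) (z : ℂ) : ℝ := D 1 f z ^ 2 + D I f z ^ 2

theorem W_smooth (hB : IsOpen B) (hf : ContDiffOn ℝ ∞ f B) : ContDiffOn ℝ ∞ (W f) B :=
  ((D_smooth hB hf 1).pow 2).add ((D_smooth hB hf I).pow 2)

theorem L_smooth (hB : IsOpen B) (hf : ContDiffOn ℝ ∞ f B) : ContDiffOn ℝ ∞ (L f) B :=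
  (D_smooth hB (D_smooth hB hf 1) 1).add (D_smooth hB (D_smooth hB hf I) I)

/-- the Laplacian commutes with the derivatives -/
theorem L_D (hB : IsOpen B) (hf : ContDiffOn ℝ ∞ f B) (v : ℂ) {z : ℂ} (hz : z ∈ B) :
    L (D v f) z = D v (L f) z := by
  have key : ∀ a, D a (D a (D v f)) z = D v (D a (D a f)) z := by
    intro a
    rw [D_congr hB (fun y hy => D_comm hB hf a v hy) a hz]
    exact D_comm hB (D_smooth hB hf a) a v hz
  unfold L
  rw [key 1, key I]
  exact (D_add (diffAt hB (D_smooth hB (D_smooth hB hf 1) 1) hz)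
    (diffAt hB (D_smooth hB (D_smooth hB hf I) I) hz) v).symm

/-- Bochner's formula as an inequality. -/
theorem bochner (hB : IsOpen B) (hf : ContDiffOn ℝ ∞ f B) {z : ℂ} (hz : z ∈ B) :
    2 * (D 1 f z * D 1 (L f) z + D I f z * D I (L f) z) ≤ L (W f) z := by
  have s1 := D_smooth hB hf 1
  have s2 := D_smooth hB hf I
  have h : L (W f) z = L (fun z => D 1 f z ^ 2) z + L (fun z => D I f z ^ 2) z :=
    L_add (f := fun z => D 1 f z ^ 2) (g := fun z => D I f z ^ 2) hB (s1.pow 2) (s2.pow 2) hz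
  rw [h, L_sq hB s1 hz, L_sq hB s2 hz, L_D hB hf 1 hz, L_D hB hf I hz]
  nlinarith [sq_nonneg (D 1 (D 1 f) z), sq_nonneg (D I (D 1 f) z), sq_nonneg (D 1 (D I f) z),
    sq_nonneg (D I (D I f) z)]

/-- The equation for `φ = arcsin v`. -/
theorem arcsin_eq (hB : IsOpen B) {v Q φ : ℂ → ℝ} (hφ : ContDiffOn ℝ ∞ φ B)
    (hv : ∀ z ∈ B, v z = Real.sin (φ z)) (hc : ∀ z ∈ B, 0 < Real.cos (φ z))
    (heq : ∀ z ∈ B, L v z = -(Q z * v z)) {z : ℂ} (hz : z ∈ B) :
    L φ z = Real.tan (φ z) * (W φ z - Q z) := by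
  have key : ∀ a, D a (D a v) z =
      Real.cos (φ z) * D a (D a φ) z - Real.sin (φ z) * D a φ z ^ 2 := by
    intro a
    have h1 : ∀ y ∈ B, D a v y = Real.cos (φ y) * D a φ y := by
      intro y hy
      rw [D_congr hB hv a hy]
      exact D_comp (diffAt hB hφ hy) (Real.hasDerivAt_sin _) a
    rw [D_congr hB h1 a hz]
    have s1 := diffAt hB hφ hz
    have s2 := diffAt hB (D_smooth hB hφ a) hz
    have s3 : DifferentiableAt ℝ (fun y => Real.cos (φ y)) z :=
      (Real.hasDerivAt_cos _).differentiableAt.comp z s1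
    rw [D_mul s3 s2, D_comp s1 (Real.hasDerivAt_cos _) a]
    ring
  have h2 := heq z hz
  unfold L at h2
  rw [key 1, key I, hv z hz] at h2
  have h3 := hc z hz
  rw [Real.tan_eq_sin_div_cos, div_mul_eq_mul_div, eq_div_iff h3.ne']
  unfold L W
  linarith

theorem grad_v (hB : IsOpen B) {v φ : ℂ → ℝ} (hφ : ContDiffOn ℝ ∞ φ B)
    (hv : ∀ z ∈ B, v z = Real.sin (φ z)) {z : ℂ} (hz : z ∈ B) :
    W v z = (1 - v z ^ 2) * W φ z := by
  have h1 : ∀ a, D a v z = Real.cos (φ z) * D a φ z := by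
    intro a
    rw [D_congr hB hv a hz]
    exact D_comp (diffAt hB hφ hz) (Real.hasDerivAt_sin _) a
  unfold W
  rw [h1 1, h1 I, hv z hz]
  have h2 := Real.sin_sq_add_cos_sq (φ z)
  have h3 : 1 - Real.sin (φ z) ^ 2 = Real.cos (φ z) ^ 2 := by linarith
  rw [h3]
  ring

/-- The differential inequality for `W φ`. -/
theorem W_ineq (hB : IsOpen B) {v Q φ : ℂ → ℝ} (hφ : ContDiffOn ℝ ∞ φ B)
    (hQ : ContDiffOn ℝ ∞ Q B)
    (hv : ∀ z ∈ B, v z = Real.sin (φ z)) (hc : ∀ z ∈ B, 0 < Real.cos (φ z))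
    (heq : ∀ z ∈ B, L v z = -(Q z * v z)) {z : ℂ} (hz : z ∈ B) :
    2 * ((Real.cos (φ z) ^ 2)⁻¹ * (W φ z * (W φ z - Q z)) + Real.tan (φ z) *
      (D 1 φ z * (D 1 (W φ) z - D 1 Q z) + D I φ z * (D I (W φ) z - D I Q z))) ≤ L (W φ) z := by
  refine le_trans (le_of_eq ?_) (bochner hB hφ hz)
  have key : ∀ a, D a (L φ) z = Real.tan (φ z) * (D a (W φ) z - D a Q z) +
      (Real.cos (φ z) ^ 2)⁻¹ * D a φ z * (W φ z - Q z) := by
    intro a
    rw [D_congr hB (fun y hy => arcsin_eq hB hφ hv hc heq hy) a hz]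
    have s1 := diffAt hB hφ hz
    have s2 := diffAt hB (W_smooth hB hφ) hz
    have s3 := diffAt hB hQ hz
    have ht : HasDerivAt Real.tan (Real.cos (φ z) ^ 2)⁻¹ (φ z) := by
      have := Real.hasDerivAt_tan (hc z hz).ne'
      rwa [one_div] at this
    have s4 : DifferentiableAt ℝ (fun y => Real.tan (φ y)) z := ht.differentiableAt.comp z s1
    rw [D_mul (f := fun y => Real.tan (φ y)) (g := fun y => W φ y - Q y) s4 (s2.sub s3),
      D_comp s1 ht a, D_sub s2 s3]
  rw [key 1, key I]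
  unfold W
  ring

end

end Pool.Agent.U524.SN
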