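import Mathlib

/-! Calculus in the plane: directional derivatives of smooth real functions on an open subset of `ℂ`,
and the second derivative test. -/

set_option autoImplicit false
open MeasureTheory Filter Topology Complex Set
open scoped ContDiff

namespace Pool.Agent.U524.SN

noncomputable section

/-- directional derivative -/
def D (v : ℂ) (f : ℂ → ℝ) (z : ℂ) : ℝ := fderiv ℝ f z v

/-- the Laplacian -/
def L (f : ℂ → ℝ) (z : ℂ) : ℝ := D 1 (D 1 f) z + D I (D I f) z

variable {B : Set ℂ} {f g : ℂ → ℝ}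

theorem D_smooth (hB : IsOpen B) (hf : ContDiffOn ℝ ∞ f B) (v : ℂ) : ContDiffOn ℝ ∞ (D v f) B := by
  have h := hf.fderiv_of_isOpen (m := ∞) hB (by simp)
  exact h.clm_apply contDiffOn_const

theorem diffAt (hB : IsOpen B) (hf : ContDiffOn ℝ ∞ f B) {z : ℂ} (hz : z ∈ B) :
    DifferentiableAt ℝ f z :=
  (hf.contDiffAt (hB.mem_nhds hz)).differentiableAt (by simp)

theorem D_mul {z : ℂ} (hf : DifferentiableAt ℝ f z) (hg : DifferentiableAt ℝ g z) (v : ℂ) :
    D v (fun z => f z * g z) z = f z * D v g z + D v f z * g z := by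
  unfold D
  rw [show (fun z => f z * g z) = f * g from rfl, fderiv_mul hf hg]
  simp only [ContinuousLinearMap.add_apply, ContinuousLinearMap.smul_apply, smul_eq_mul]
  ring

theorem D_add {z : ℂ} (hf : DifferentiableAt ℝ f z) (hg : DifferentiableAt ℝ g z) (v : ℂ) :
    D v (fun z => f z + g z) z = D v f z + D v g z := by
  unfold D
  rw [show (fun z => f z + g z) = f + g from rfl, fderiv_add hf hg]
  rfl

theorem D_sub {z : ℂ} (hf : DifferentiableAt ℝ f z) (hg : DifferentiableAt ℝ g z) (v : ℂ) :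
    D v (fun z => f z - g z) z = D v f z - D v g z := by
  unfold D
  rw [show (fun z => f z - g z) = f - g from rfl, fderiv_sub hf hg]
  rfl

theorem D_congr (hB : IsOpen B) (h : ∀ z ∈ B, f z = g z) (v : ℂ) {z : ℂ} (hz : z ∈ B) :
    D v f z = D v g z := by
  unfold D
  rw [Filter.EventuallyEq.fderiv_eq (Filter.eventuallyEq_of_mem (hB.mem_nhds hz) h)]

theorem D_comm (hB : IsOpen B) (hf : ContDiffOn ℝ ∞ f B) (v w : ℂ) {z : ℂ} (hz : z ∈ B) :
    D v (D w f) z = D w (D v f) z := by
  have h1 : ContDiffAt ℝ ∞ f z := hf.contDiffAt (hB.mem_nhds hz)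
  have hs : IsSymmSndFDerivAt ℝ f z := h1.isSymmSndFDerivAt (by
    rw [minSmoothness_of_isRCLikeNormedField]
    exact WithTop.coe_le_coe.2 (le_top : (2 : ℕ∞) ≤ ⊤))
  have h2 : DifferentiableAt ℝ (fderiv ℝ f) z :=
    ((hf.fderiv_of_isOpen (m := ∞) hB (by simp)).contDiffAt (hB.mem_nhds hz)).differentiableAt
      (by simp)
  have h3 : ∀ a b : ℂ, D a (D b f) z = fderiv ℝ (fderiv ℝ f) z a b := by
    intro a b
    show fderiv ℝ (fun y => (fderiv ℝ f y) b) z a = _
    rw [fderiv_clm_apply h2 (differentiableAt_const b)]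
    simp
  rw [h3, h3]
  exact hs v w

theorem D_comp {z : ℂ} (hf : DifferentiableAt ℝ f z) {F : ℝ → ℝ} {F' : ℝ}
    (hF : HasDerivAt F F' (f z)) (v : ℂ) : D v (fun z => F (f z)) z = F' * D v f z := by
  unfold D
  have h := hF.comp_hasFDerivAt z hf.hasFDerivAt
  have e : (fun z => F (f z)) = F ∘ f := rfl
  rw [e, h.fderiv]
  simp

/-- the restriction to a line -/
theorem line_deriv {z v : ℂ} {t : ℝ} (hf : DifferentiableAt ℝ f (z + t • v)) :
    HasDerivAt (fun s : ℝ => f (z + s • v)) (D v f (z + t • v)) t := by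
  have h1 : HasDerivAt (fun s : ℝ => z + s • v) v t := by
    have := (hasDerivAt_id t).smul_const v
    simpa using this.const_add z
  exact hf.hasFDerivAt.comp_hasDerivAt t h1

/-- The necessary conditions at a local maximum. -/
theorem max_test (hB : IsOpen B) (hf : ContDiffOn ℝ ∞ f B) {z : ℂ} (hz : z ∈ B)
    (hm : IsLocalMax f z) (v : ℂ) : D v f z = 0 ∧ D v (D v f) z ≤ 0 := by
  have h0 : D v f z = 0 := by
    unfold D
    rw [hm.fderiv_eq_zero]
    rfl
  refine ⟨h0, ?_⟩
  by_contra hc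
  rw [not_le] at hc
  have hcont : Continuous fun s : ℝ => z + s • v := by fun_prop
  have hz0 : z + (0 : ℝ) • v = z := by simp
  have hev : ∀ᶠ t : ℝ in 𝓝 0, z + t • v ∈ B := by
    have h1 : Tendsto (fun s : ℝ => z + s • v) (𝓝 0) (𝓝 z) := by
      have := hcont.tendsto 0
      rwa [hz0] at this
    exact h1 (hB.mem_nhds hz)
  set c : ℝ := D v (D v f) z with hcd
  set h : ℝ → ℝ := fun t => f (z + t • v) - c / 4 * t ^ 2 with hh
  have hd1 : ∀ᶠ t : ℝ in 𝓝 0, deriv h t = D v f (z + t • v) - c / 2 * t := by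
    filter_upwards [hev] with t ht
    have h1 := line_deriv (f := f) (v := v) (z := z) (t := t) (diffAt hB hf ht)
    have h2 : HasDerivAt (fun t : ℝ => c / 4 * t ^ 2) (c / 4 * (2 * t)) t := by
      have := (hasDerivAt_pow 2 t).const_mul (c / 4)
      simpa using this
    have h3 := h1.sub h2
    rw [show c / 4 * (2 * t) = c / 2 * t by ring] at h3
    exact h3.deriv
  have hd0 : deriv h 0 = 0 := by
    have := hd1.self_of_nhds
    rw [this, hz0, h0]
    ring
  have hdd : deriv (deriv h) 0 = c / 2 := by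
    have h1 : deriv (deriv h) 0 = deriv (fun t : ℝ => D v f (z + t • v) - c / 2 * t) 0 :=
      Filter.EventuallyEq.deriv_eq hd1
    rw [h1]
    have h2 := line_deriv (f := D v f) (v := v) (z := z) (t := 0)
      (by rw [hz0]; exact diffAt hB (D_smooth hB hf v) hz)
    rw [hz0] at h2
    have h3 : HasDerivAt (fun t : ℝ => c / 2 * t) (c / 2) 0 := by
      simpa using (hasDerivAt_id (0 : ℝ)).const_mul (c / 2)
    have h4 := h2.sub h3
    have h5 : deriv (fun t : ℝ => D v f (z + t • v) - c / 2 * t) 0 = c - c / 2 := h4.deriv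
    rw [h5]
    ring
  have hcont0 : ContinuousAt h 0 := by
    have h1 : ContinuousAt f z := (diffAt hB hf hz).continuousAt
    have h2 : ContinuousAt (fun t : ℝ => f (z + t • v)) 0 := by
      apply ContinuousAt.comp (g := f)
      · rw [hz0]; exact h1
      · exact hcont.continuousAt
    exact h2.sub (by fun_prop)
  have hmin := isLocalMin_of_deriv_deriv_pos (f := h) (x₀ := 0) (by rw [hdd]; linarith) hd0 hcont0
  have hmax : ∀ᶠ t : ℝ in 𝓝 0, f (z + t • v) ≤ f z := by
    have h1 : Tendsto (fun s : ℝ => z + s • v) (𝓝 0) (𝓝 z) := by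
      have := hcont.tendsto 0
      rwa [hz0] at this
    exact h1 hm
  have hne : ∀ᶠ t : ℝ in 𝓝[≠] 0, False := by
    filter_upwards [nhdsWithin_le_nhds hmin, nhdsWithin_le_nhds hmax, self_mem_nhdsWithin]
      with t h1 h2 h3
    have h4 : h 0 = f z := by simp [hh]
    have h5 : f z ≤ f (z + t • v) - c / 4 * t ^ 2 := by
      have : h 0 ≤ h t := h1
      rw [h4] at this
      exact this
    have h6 : 0 < t ^ 2 := by
      have : t ≠ 0 := h3
      positivity
    nlinarith
  rw [eventually_false_iff_eq_bot] at hne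
  exact (inferInstance : (𝓝[≠] (0 : ℝ)).NeBot).ne hne

theorem L_nonpos (hB : IsOpen B) (hf : ContDiffOn ℝ ∞ f B) {z : ℂ} (hz : z ∈ B)
    (hm : IsLocalMax f z) : L f z ≤ 0 := by
  have h1 := (max_test hB hf hz hm 1).2
  have h2 := (max_test hB hf hz hm I).2
  unfold L
  linarith

end

end Pool.Agent.U524.SN
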