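import Mathlib

/-! An inequality between measures of compact and open sets gives an inequality between densities. -/

set_option autoImplicit false
open MeasureTheory Filter Topology Set
open scoped ENNReal NNReal

namespace Pool.Agent.U524.SN

theorem dens_le {U : Set ℂ} (hU : IsOpen U) {g h : ℂ → ℝ≥0∞}
    (hg : ∀ K : Set ℂ, IsCompact K → K ⊆ U → AEMeasurable g (volume.restrict K) ∧
      ∫⁻ z in K, g z ≠ ∞)
    (hh : ∀ K : Set ℂ, IsCompact K → K ⊆ U → ∫⁻ z in K, h z ≠ ∞)
    (H : ∀ K V : Set ℂ, IsCompact K → IsOpen V → K ⊆ V → V ⊆ U →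
      ∫⁻ z in K, g z ≤ ∫⁻ z in V, h z) :
    ∀ᵐ z ∂(volume.restrict U), g z ≤ h z := by
  rw [ae_restrict_iff' hU.measurableSet, ae_iff]
  apply measure_null_of_locally_null
  intro x hx
  have hxU : x ∈ U := by
    by_contra h
    exact hx fun h' => absurd h' h
  obtain ⟨r, hr, hrU⟩ := Metric.nhds_basis_closedBall.mem_iff.1 (hU.mem_nhds hxU)
  set B : Set ℂ := Metric.ball x r with hB
  have hBm : MeasurableSet B := Metric.isOpen_ball.measurableSet
  have hBK : B ⊆ Metric.closedBall x r := Metric.ball_subset_closedBall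
  have hK : IsCompact (Metric.closedBall x r) := isCompact_closedBall x r
  suffices hloc : ∀ᵐ z ∂(volume.restrict B), g z ≤ h z by
    rw [ae_restrict_iff' hBm, ae_iff] at hloc
    refine ⟨{a | ¬(a ∈ U → g a ≤ h a)} ∩ B, inter_mem_nhdsWithin _ (Metric.ball_mem_nhds x hr), ?_⟩
    refine measure_mono_null (fun z hz => ?_) hloc
    intro h1
    exact hz.1 fun _ => h1 hz.2
  have hgB : AEMeasurable g (volume.restrict B) :=
    (hg _ hK hrU).1.mono_measure (Measure.restrict_mono hBK le_rfl)
  set μ : Measure ℂ := volume.restrict B with hμ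
  have f1 : ∫⁻ z, g z ∂μ ≠ ∞ :=
    ((lintegral_mono_set hBK).trans_lt (hg _ hK hrU).2.lt_top).ne
  have f2 : ∫⁻ z, h z ∂μ ≠ ∞ :=
    ((lintegral_mono_set hBK).trans_lt (hh _ hK hrU).lt_top).ne
  have i1 : IsFiniteMeasure (μ.withDensity g) := isFiniteMeasure_withDensity f1
  have i2 : IsFiniteMeasure (μ.withDensity h) := isFiniteMeasure_withDensity f2
  refine ae_le_of_forall_setLIntegral_le_of_sigmaFinite₀ hgB fun s hs _ => ?_
  rw [← withDensity_apply g hs, ← withDensity_apply h hs]
  refine ENNReal.le_of_forall_pos_le_add fun ε hε _ => ?_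
  have hε2 : (ε / 2 : ℝ≥0∞) ≠ 0 := by
    have : (ε : ℝ≥0∞) ≠ 0 := by exact_mod_cast hε.ne'
    exact (ENNReal.half_pos this).ne'
  have e1 : μ.withDensity g s = μ.withDensity g (s ∩ B) := by
    rw [withDensity_apply g hs, withDensity_apply g (hs.inter hBm), hμ,
      Measure.restrict_restrict hs, Measure.restrict_restrict (hs.inter hBm), inter_assoc,
      inter_self]
  obtain ⟨K, hKs, hKc, hKlt⟩ := (hs.inter hBm).exists_isCompact_lt_add
    (μ := μ.withDensity g) (measure_ne_top _ _) hε2
  obtain ⟨V, hVs, hVo, hVle⟩ := s.exists_isOpen_le_add (μ.withDensity h) hε2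
  have k1 : μ.withDensity g K ≤ μ.withDensity h V := by
    rw [withDensity_apply g hKc.measurableSet, withDensity_apply h hVo.measurableSet, hμ,
      Measure.restrict_restrict hKc.measurableSet, Measure.restrict_restrict hVo.measurableSet]
    refine (lintegral_mono_set inter_subset_left).trans ?_
    exact H K (V ∩ B) hKc (hVo.inter Metric.isOpen_ball)
      (fun z hz => ⟨hVs (hKs hz).1, (hKs hz).2⟩)
      (fun z hz => hrU (hBK hz.2))
  calc μ.withDensity g s = μ.withDensity g (s ∩ B) := e1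
    _ ≤ μ.withDensity g K + ε / 2 := hKlt.le
    _ ≤ μ.withDensity h V + ε / 2 := by gcongr
    _ ≤ (μ.withDensity h s + ε / 2) + ε / 2 := by gcongr
    _ = μ.withDensity h s + ε := by rw [add_assoc, ENNReal.add_halves]

end Pool.Agent.U524.SN
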