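import Pool.Agent.U524.SN.Ball

/-! The sharp gradient estimate on compact sets, for large eigenvalues. -/

set_option autoImplicit false
open MeasureTheory Filter Topology Complex Set
open scoped ContDiff

namespace Pool.Agent.U524.SN

noncomputable section

variable {U : Set ℂ}

theorem D_mulc {f : ℂ → ℝ} {z : ℂ} (hf : DifferentiableAt ℝ f z) (c : ℝ) (v : ℂ) :
    D v (fun z => f z * c) z = D v f z * c := by
  rw [D_mul hf (differentiableAt_const c), D_const]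
  ring

theorem W_mulc {f : ℂ → ℝ} {z : ℂ} (hf : DifferentiableAt ℝ f z) (c : ℝ) :
    W (fun z => f z * c) z = W f z * c ^ 2 := by
  unfold W
  rw [D_mulc hf, D_mulc hf]
  ring

theorem L_mulc (hU : IsOpen U) {f : ℂ → ℝ} (hf : ContDiffOn ℝ ∞ f U) (c : ℝ) {z : ℂ}
    (hz : z ∈ U) : L (fun z => f z * c) z = L f z * c := by
  have key : ∀ v, D v (D v (fun z => f z * c)) z = D v (D v f) z * c := by
    intro v
    rw [D_congr hU (fun y hy => D_mulc (diffAt hU hf hy) c v) v hz]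
    exact D_mulc (diffAt hU (D_smooth hU hf v) hz) c v
  unfold L
  rw [key, key]
  ring

/-- One disc, in terms of the bound `M`. -/
theorem disc (hU : IsOpen U) {z₀ : ℂ} {r : ℝ} (hr : 0 < r) (hball : Metric.closedBall z₀ r ⊆ U)
    {u ρ : ℂ → ℝ} (hu : ContDiffOn ℝ ∞ u U) (hρ : ContDiffOn ℝ ∞ ρ U) (hρ0 : ∀ z ∈ U, 0 < ρ z)
    {lam : ℝ} (hlam : 0 < lam) (heq : ∀ z ∈ U, L u z + lam * (ρ z * u z) = 0) {M : ℝ}
    (hM : ∀ z ∈ U, |u z| ≤ M) {a ℓ : ℝ} (ha : 0 < a) (hℓ : 0 ≤ ℓ)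
    (hρa : ∀ z ∈ Metric.closedBall z₀ r, ρ z ≤ a)
    (hρℓ : ∀ z ∈ Metric.closedBall z₀ r, W ρ z ≤ ℓ ^ 2) :
    W u z₀ * (1 - 2 / (r * √(lam * a))) ≤
      (M ^ 2 - u z₀ ^ 2) * (lam * a + lam * ℓ / (2 * √(lam * a)) + 20 / r ^ 2) := by
  have hz₀ : z₀ ∈ U := hball (Metric.mem_closedBall_self hr.le)
  have hM0 : 0 ≤ M := (abs_nonneg _).trans (hM z₀ hz₀)
  have key : ∀ M' : ℝ, M < M' → W u z₀ * (1 - 2 / (r * √(lam * a))) ≤
      (M' ^ 2 - u z₀ ^ 2) * (lam * a + lam * ℓ / (2 * √(lam * a)) + 20 / r ^ 2) := by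
    intro M' hM'
    have hM'0 : 0 < M' := lt_of_le_of_lt hM0 hM'
    have h1 := ball (B := U) hU hr hball (v := fun z => u z * M'⁻¹) (Q := fun z => ρ z * lam)
      (hu.mul contDiffOn_const) (hρ.mul contDiffOn_const) (fun z hz => by
        rw [abs_mul, abs_of_pos (inv_pos.2 hM'0), ← div_eq_mul_inv, div_lt_one hM'0]
        exact lt_of_le_of_lt (hM z hz) hM') (fun z hz => by
        rw [L_mulc hU hu _ hz]
        have h2 := heq z hz
        have h3 : L u z = -(lam * (ρ z * u z)) := by linarith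
        rw [h3]
        ring) (Qp := lam * a) (Lq := lam * ℓ) (by positivity) (by positivity)
      (fun z hz => (mul_pos (hρ0 z hz) hlam).le) (fun z hz => by
        rw [mul_comm]
        exact mul_le_mul_of_nonneg_left (hρa z hz) hlam.le) (fun z hz => by
        rw [W_mulc (diffAt hU hρ (hball hz)), mul_pow, mul_comm]
        exact mul_le_mul_of_nonneg_left (hρℓ z hz) (by positivity))
    rw [W_mulc (diffAt hU hu hz₀)] at h1
    have h2 := mul_le_mul_of_nonneg_left h1 (by positivity : 0 ≤ M' ^ 2)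
    have e1 : M' ^ 2 * (W u z₀ * M'⁻¹ ^ 2 * (1 - 2 / (r * √(lam * a)))) =
        W u z₀ * (1 - 2 / (r * √(lam * a))) := by
      have : M' ^ 2 * M'⁻¹ ^ 2 = 1 := by
        rw [← mul_pow, mul_inv_cancel₀ hM'0.ne', one_pow]
      calc _ = (M' ^ 2 * M'⁻¹ ^ 2) * (W u z₀ * (1 - 2 / (r * √(lam * a)))) := by ring
        _ = _ := by rw [this, one_mul]
    have e2 : M' ^ 2 * ((1 - (u z₀ * M'⁻¹) ^ 2) *
        (lam * a + lam * ℓ / (2 * √(lam * a)) + 20 / r ^ 2)) =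
        (M' ^ 2 - u z₀ ^ 2) * (lam * a + lam * ℓ / (2 * √(lam * a)) + 20 / r ^ 2) := by
      have : M' ^ 2 * M'⁻¹ ^ 2 = 1 := by
        rw [← mul_pow, mul_inv_cancel₀ hM'0.ne', one_pow]
      calc _ = (M' ^ 2 - (M' ^ 2 * M'⁻¹ ^ 2) * u z₀ ^ 2) *
            (lam * a + lam * ℓ / (2 * √(lam * a)) + 20 / r ^ 2) := by ring
        _ = _ := by rw [this, one_mul]
    rw [e1, e2] at h2
    exact h2
  have hcont : Continuous fun M' : ℝ => (M' ^ 2 - u z₀ ^ 2) *
      (lam * a + lam * ℓ / (2 * √(lam * a)) + 20 / r ^ 2) := by fun_prop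
  refine ge_of_tendsto ((hcont.tendsto M).mono_left (nhdsWithin_le_nhds (s := Ioi M))) ?_
  filter_upwards [self_mem_nhdsWithin] with M' hM'
  exact key M' hM'

/-- **The sharp gradient estimate on compact sets.** -/
theorem grad_loc (hU : IsOpen U) {K : Set ℂ} (hK : IsCompact K) (hKU : K ⊆ U) {ρ : ℂ → ℝ}
    (hρ : ContDiffOn ℝ ∞ ρ U) (hρ0 : ∀ z ∈ U, 0 < ρ z) {ε : ℝ} (hε : 0 < ε) :
    ∀ᶠ lam : ℝ in atTop, ∀ u : ℂ → ℝ, ContDiffOn ℝ ∞ u U →
      (∀ z ∈ U, L u z + lam * (ρ z * u z) = 0) → ∀ M : ℝ, (∀ z ∈ U, |u z| ≤ M) →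
      ∀ z ∈ K, W u z ≤ lam * ((1 + ε) * (ρ z * (M ^ 2 - u z ^ 2))) := by
  rcases K.eq_empty_or_nonempty with rfl | hne
  · exact Eventually.of_forall fun lam u _ _ M _ z hz => absurd hz (notMem_empty z)
  obtain ⟨δ, hδ, hδU⟩ := hK.exists_cthickening_subset_open hU hKU
  set K' : Set ℂ := Metric.cthickening δ K with hK'
  have hK'c : IsCompact K' := hK.cthickening
  have hKK' : K ⊆ K' := Metric.self_subset_cthickening K
  have hK'ne : K'.Nonempty := hne.mono hKK'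
  have hρc : ContinuousOn ρ K' := hρ.continuousOn.mono hδU
  obtain ⟨zm, hzm, hmin⟩ := hK'c.exists_isMinOn hK'ne hρc
  set b : ℝ := ρ zm with hb
  have hb0 : 0 < b := hρ0 zm (hδU hzm)
  have hbmin : ∀ z ∈ K', b ≤ ρ z := fun z hz => hmin hz
  obtain ⟨zM, hzM, hmax⟩ := hK'c.exists_isMaxOn hK'ne ((W_smooth hU hρ).continuousOn.mono hδU)
  set ℓ : ℝ := √(W ρ zM) with hℓd
  have hℓ : 0 ≤ ℓ := Real.sqrt_nonneg _
  have hℓ2 : ∀ z ∈ K', W ρ z ≤ ℓ ^ 2 := by
    intro z hz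
    rw [hℓd, Real.sq_sqrt (by unfold W; positivity)]
    exact hmax hz
  -- uniform continuity
  have huc := hK'c.uniformContinuousOn_of_continuous hρc
  rw [Metric.uniformContinuousOn_iff] at huc
  obtain ⟨r₁, hr₁, huc⟩ := huc (ε / 2 * b) (by positivity)
  set r : ℝ := min δ (r₁ / 2) with hr
  have hr0 : 0 < r := lt_min hδ (by linarith)
  have hball : ∀ z₀ ∈ K, Metric.closedBall z₀ r ⊆ K' := by
    intro z₀ hz₀ z hz
    exact Metric.mem_cthickening_of_dist_le z z₀ δ K hz₀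
      ((Metric.mem_closedBall.1 hz).trans (min_le_left _ _))
  have hρa : ∀ z₀ ∈ K, ∀ z ∈ Metric.closedBall z₀ r, ρ z ≤ (1 + ε / 2) * ρ z₀ := by
    intro z₀ hz₀ z hz
    have h1 : dist z z₀ < r₁ := by
      have := (Metric.mem_closedBall.1 hz).trans (min_le_right _ _)
      linarith
    have h2 := huc z (hball z₀ hz₀ hz) z₀ (hKK' hz₀) h1
    rw [Real.dist_eq] at h2
    have h3 := (abs_lt.1 h2).2
    have h4 := mul_le_mul_of_nonneg_left (hbmin z₀ (hKK' hz₀)) (by positivity : 0 ≤ ε / 2)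
    linarith
  -- the conditions on `lam`
  have hS : Tendsto (fun lam : ℝ => √(lam * b)) atTop atTop :=
    Real.tendsto_sqrt_atTop.comp (tendsto_id.atTop_mul_const hb0)
  have c1 : ∀ᶠ lam : ℝ in atTop, ℓ / (2 * √(lam * b)) ≤ b * ε / 8 := by
    have h1 : Tendsto (fun lam : ℝ => ℓ / (2 * √(lam * b))) atTop (𝓝 0) :=
      tendsto_const_nhds.div_atTop (hS.const_mul_atTop two_pos)
    exact (h1.eventually_lt_const (by positivity)).mono fun _ h => h.le
  have c2 : ∀ᶠ lam : ℝ in atTop, 20 / r ^ 2 ≤ lam * (b * ε / 8) := by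
    have h1 : Tendsto (fun lam : ℝ => lam * (b * ε / 8)) atTop atTop :=
      tendsto_id.atTop_mul_const (by positivity)
    exact h1.eventually_ge_atTop _
  have c3 : ∀ᶠ lam : ℝ in atTop, (1 + ε) * (2 / (r * √(lam * b))) ≤ ε / 4 := by
    have h1 : Tendsto (fun lam : ℝ => (1 + ε) * (2 / (r * √(lam * b)))) atTop (𝓝 ((1 + ε) * 0)) :=
      (tendsto_const_nhds.div_atTop (hS.const_mul_atTop hr0)).const_mul _
    rw [mul_zero] at h1
    exact (h1.eventually_lt_const (by positivity)).mono fun _ h => h.le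
  filter_upwards [c1, c2, c3, eventually_gt_atTop 0] with lam c1 c2 c3 hlam
  intro u hu heq M hM z hz
  have hzU : z ∈ U := hKU hz
  set a : ℝ := (1 + ε / 2) * ρ z with had
  have hρz : 0 < ρ z := hρ0 z hzU
  have hbρ : b ≤ ρ z := hbmin z (hKK' hz)
  have hba : b ≤ a := by
    rw [had]
    nlinarith
  have ha : 0 < a := lt_of_lt_of_le hb0 hba
  have key := disc hU hr0 ((hball z hz).trans hδU) hu hρ hρ0 hlam heq hM ha hℓ (hρa z hz)
    (fun y hy => hℓ2 y (hball z hz hy))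
  have hsb : 0 < √(lam * b) := Real.sqrt_pos.2 (by positivity)
  have hss : √(lam * b) ≤ √(lam * a) := Real.sqrt_le_sqrt (by gcongr)
  have k1 : ℓ / (2 * √(lam * a)) ≤ b * ε / 8 := by
    refine le_trans ?_ c1
    gcongr
  have k3 : (1 + ε) * (2 / (r * √(lam * a))) ≤ ε / 4 := by
    refine le_trans ?_ c3
    gcongr
  set θ : ℝ := 2 / (r * √(lam * a)) with hθ
  have hθ0 : 0 ≤ θ := by positivity
  have hθ1 : θ < 1 := by nlinarith
  have k4 : lam * a + lam * ℓ / (2 * √(lam * a)) + 20 / r ^ 2 ≤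
      lam * ((1 + ε) * ρ z) * (1 - θ) := by
    have e1 : lam * ℓ / (2 * √(lam * a)) = lam * (ℓ / (2 * √(lam * a))) := by ring
    rw [e1]
    have e2 : lam * (ℓ / (2 * √(lam * a))) ≤ lam * (b * ε / 8) :=
      mul_le_mul_of_nonneg_left k1 hlam.le
    have e3 : lam * ((1 + ε) * ρ z) * θ ≤ lam * ρ z * (ε / 4) := by
      calc lam * ((1 + ε) * ρ z) * θ = lam * ρ z * ((1 + ε) * θ) := by ring
        _ ≤ _ := mul_le_mul_of_nonneg_left k3 (by positivity)
    have e4 : lam * (b * ε / 8) ≤ lam * (ρ z * ε / 8) := by gcongr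
    have e5 : lam * a = lam * ρ z + lam * ρ z * (ε / 2) := by rw [had]; ring
    have e6 : lam * ((1 + ε) * ρ z) * (1 - θ) =
        lam * ρ z + lam * ρ z * ε - lam * ((1 + ε) * ρ z) * θ := by ring
    have e7 : lam * (ρ z * ε / 8) = lam * ρ z * (ε / 8) := by ring
    calc lam * a + lam * (ℓ / (2 * √(lam * a))) + 20 / r ^ 2 ≤
        (lam * ρ z + lam * ρ z * (ε / 2)) + lam * (b * ε / 8) + lam * (b * ε / 8) := by
          rw [← e5]; linarith
      _ ≤ lam * ρ z + lam * ρ z * ε - lam * ((1 + ε) * ρ z) * θ := by linarith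
      _ = _ := e6.symm
  have hMu : 0 ≤ M ^ 2 - u z ^ 2 := by
    have h1 := hM z hzU
    have h2 : |u z| ^ 2 ≤ M ^ 2 := pow_le_pow_left₀ (abs_nonneg _) h1 2
    rw [sq_abs] at h2
    linarith
  have k5 := key.trans (mul_le_mul_of_nonneg_left k4 hMu)
  have k6 : W u z * (1 - θ) ≤ lam * ((1 + ε) * (ρ z * (M ^ 2 - u z ^ 2))) * (1 - θ) := by
    refine k5.trans (le_of_eq ?_)
    ring
  exact le_of_mul_le_mul_right k6 (by linarith)

end

end Pool.Agent.U524.SN
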