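import Pool.Agent.TH294.RG.Fin
import Pool.Agent.U524.SN.Int
import Pool.Agent.U524.SN.Dens

/-! Bounded sequences of eigenfunctions and their semiclassical measures. -/

set_option autoImplicit false
open MeasureTheory Filter Topology Complex Set ProbabilityTheory
open scoped ContDiff ENNReal

namespace Pool.Agent.U524.SN

open Pool.Agent.W745.RW (lap TF)
open Pool.Agent.TH294.RG Pool.Agent.TH294.RS

variable {Y : Type*} [MeasurableSpace Y] {m : ℂ → ℝ} {e : Y → ℂ} {ν : Kernel ℂ Y}

theorem L_eq (f : ℂ → ℝ) (z : ℂ) : L f z = lap f z := rfl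

theorem ofReal_int_le {f : ℂ → ℝ} (hf : Integrable f) :
    ENNReal.ofReal (∫ z, f z) ≤ ∫⁻ z, ENNReal.ofReal (f z) := by
  have h1 : ∫ z, f z ≤ ∫ z, max (f z) 0 := integral_mono hf hf.pos_part fun z => le_max_left _ _
  refine (ENNReal.ofReal_le_ofReal h1).trans ?_
  rw [ofReal_integral_eq_lintegral_ofReal hf.pos_part
    (Eventually.of_forall fun z => le_max_right _ _)]
  refine lintegral_mono fun z => ?_
  rcases le_total 0 (f z) with h | h
  · rw [max_eq_left h]
  · rw [max_eq_right h]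
    simp

/-- The case of a sequence which is bounded by `M`. -/
theorem main_all [IsMarkovKernel ν] {U : Set ℂ} (hU : IsOpen U) {a : ℂ → ℝ} {h : ℕ → ℝ}
    {u : ℕ → ℂ → ℝ} (he : Measurable e) (h1 : ∀ y, ‖e y‖ = 1)
    (hm : ∀ K : Set ℂ, IsCompact K → K ⊆ U → MemLp m 2 (volume.restrict K))
    (H : RawG U a h u (MM m e ν)) {M : ℝ} (hM : ∀ n, ∀ z ∈ U, |u n z| ≤ M) :
    ∀ᵐ z ∂(volume.restrict U), m z * (4 - 2 * par e (ν z)) ≤ M ^ 2 := by
  set ρ : ℂ → ℝ := fun z => 1 / a z ^ 2 with hρd
  have hρ : ContDiffOn ℝ ∞ ρ U :=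
    contDiffOn_const.div (H.sa.pow 2) fun z hz => pow_ne_zero 2 (H.pa z hz).ne'
  have hρ0 : ∀ z ∈ U, 0 < ρ z := fun z hz => div_pos one_pos (pow_pos (H.pa z hz) 2)
  have hρc := hρ.continuousOn
  set lam : ℕ → ℝ := fun n => 1 / h n ^ 2 with hlamd
  have hlam : Tendsto lam atTop atTop := by
    have h2 : Tendsto (fun n => h n ^ 2) atTop (𝓝[>] 0) := by
      refine tendsto_nhdsWithin_iff.2 ⟨?_, Eventually.of_forall fun n => pow_pos (H.hpos n) 2⟩
      simpa using H.hlim.pow 2
    have h3 := h2.inv_tendsto_nhdsGT_zero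
    refine h3.congr fun n => ?_
    simp [hlamd]
  have heq : ∀ n, ∀ z ∈ U, L (u n) z + lam n * (ρ z * u n z) = 0 := by
    intro n z hz
    have k1 := H.eq n z hz
    have k2 := (H.hpos n).ne'
    have k3 := (H.pa z hz).ne'
    rw [L_eq]
    have k4 : u n z = -((h n) ^ 2 * (a z ^ 2 * lap (u n) z)) := by linarith
    rw [k4, hlamd, hρd]
    field_simp
    ring
  -- the densities
  set g : ℂ → ℝ≥0∞ := fun z => ENNReal.ofReal (ρ z * GD m e ν z) with hg
  set hh : ℂ → ℝ≥0∞ := fun z => ENNReal.ofReal (3 / 4 * M ^ 2) * ENNReal.ofReal (ρ z * m z)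
    with hhd
  have bdd : ∀ K : Set ℂ, IsCompact K → K ⊆ U → ∀ F : ℂ → ℝ, IntegrableOn F K →
      IntegrableOn (fun z => ρ z * F z) K := by
    intro K hK hKU F hF
    obtain ⟨C, hC⟩ := hK.exists_bound_of_continuousOn (hρc.mono hKU)
    exact Integrable.bdd_mul (c := C) hF
      ((hρc.mono hKU).aestronglyMeasurable hK.measurableSet)
      ((ae_restrict_mem hK.measurableSet).mono fun z hz => hC z hz)
  have key : ∀ᵐ z ∂(volume.restrict U), g z ≤ hh z := by
    refine dens_le hU (fun K hK hKU => ?_) (fun K hK hKU => ?_) fun K V hK hV hKV hVU => ?_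
    · have k1 := bdd K hK hKU _ (GD_loc (ν := ν) he hm hK hKU)
      exact ⟨k1.aestronglyMeasurable.aemeasurable.ennreal_ofReal, k1.lintegral_lt_top.ne⟩
    · have hfin : IsFiniteMeasure (volume.restrict K) :=
        ⟨by rw [Measure.restrict_apply_univ]; exact hK.measure_lt_top⟩
      have k1 : IntegrableOn m K := (hm K hK hKU).integrable one_le_two
      have k2 := bdd K hK hKU m k1
      rw [hhd, lintegral_const_mul' _ _ ENNReal.ofReal_ne_top]
      exact ENNReal.mul_ne_top ENNReal.ofReal_ne_top k2.lintegral_lt_top.ne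
    -- the cutoff
    obtain ⟨δ, hδ, hδV⟩ := hK.exists_cthickening_subset_open hV hKV
    obtain ⟨χ, hχ, hχ1, hχ0, hχle⟩ := exists_cut hV (hK.cthickening (r := δ)) hδV
    set V1 : Set ℂ := Metric.thickening δ K with hV1
    have hV1o : IsOpen V1 := Metric.isOpen_thickening
    have hV1K : V1 ⊆ Metric.cthickening δ K := Metric.thickening_subset_cthickening _ _
    have hV1V : V1 ⊆ V := hV1K.trans hδV
    have hχU : TF U χ := ⟨hχ.1, hχ.2.1, hχ.2.2.trans hVU⟩
    have hχρ : TF U fun z => χ z * ρ z := TF.mulc hU hχU hρ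
    have low := RawG.fin (Ω := U) hU he h1 hm H hV1o (hV1V.trans hVU) (hρ.mono (hV1V.trans hVU))
      fun z hz => (hρ0 z (hVU (hV1V hz))).le
    -- the limit of the masses
    set Bm : ℝ := ∫ z, χ z * ρ z * m z with hBm
    have hA : Tendsto (fun n => ∫ z, χ z * (ρ z * u n z ^ 2)) atTop (𝓝 Bm) := by
      have k1 := H.qe _ hχρ 0
      have e1 : ∀ n, (∫ z, ((χ z * ρ z : ℝ) : ℂ) * ((u n z : ℂ) *
          (DP a (h n))^[0] (fun w => (u n w : ℂ)) z)) =
          ((∫ z, χ z * (ρ z * u n z ^ 2) : ℝ) : ℂ) := by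
        intro n
        rw [← integral_complex_ofReal]
        refine integral_congr_ae (Eventually.of_forall fun z => ?_)
        simp only [Function.iterate_zero, id]
        push_cast
        ring
      have e2 : (∫ z, ((χ z * ρ z : ℝ) : ℂ) * MM m e ν 0 z) = ((Bm : ℝ) : ℂ) := by
        rw [hBm, ← integral_complex_ofReal]
        refine integral_congr_ae (Eventually.of_forall fun z => ?_)
        simp only [MM_0]
        push_cast
        ring
      rw [e2] at k1
      simp only [e1] at k1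
      exact (Complex.continuous_re.tendsto _).comp k1
    have hup : ∀ ε : ℝ, 0 < ε → ∀ᶠ n in atTop,
        (∫ z, χ z * (ρ z * u n z ^ 4)) ≤ 3 / 4 * M ^ 2 * Bm + ε := by
      intro ε hε
      have k1 := hlam.eventually (fourth hU hρ hρ0 hχU.1 hχU.2.1 hχU.2.2 hχ0 M
        (show (0 : ℝ) < ε by exact hε))
      have k2 : ∀ᶠ n in atTop, M ^ 2 * (∫ z, χ z * (ρ z * u n z ^ 2)) ≤ M ^ 2 * Bm + ε := by
        have := (hA.const_mul (M ^ 2)).eventually_lt_const (show M ^ 2 * Bm < M ^ 2 * Bm + ε by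
          linarith)
        exact this.mono fun _ h => h.le
      filter_upwards [k1, k2] with n k1 k2
      have k3 := k1 (u n) (H.sm n) (heq n) (hM n)
      linarith
    have hcomp : ∀ n, ∫⁻ z in V1, ENNReal.ofReal (ρ z * u n z ^ 4) ≤
        ENNReal.ofReal (∫ z, χ z * (ρ z * u n z ^ 4)) := by
      intro n
      have i4 : Integrable fun z => χ z * (ρ z * u n z ^ 4) :=
        int_prod hU hχU.1.continuous hχU.2.1 hχU.2.2 (hρc.mul ((H.sm n).continuousOn.pow 4))
      have nn : ∀ z, 0 ≤ χ z * (ρ z * u n z ^ 4) := by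
        intro z
        by_cases hz : z ∈ tsupport χ
        · exact mul_nonneg (hχ0 z) (mul_nonneg (hρ0 z (hχU.2.2 hz)).le (by positivity))
        · rw [image_eq_zero_of_notMem_tsupport hz, zero_mul]
      rw [ofReal_integral_eq_lintegral_ofReal i4 (Eventually.of_forall nn)]
      refine le_trans (le_of_eq ?_) (setLIntegral_le_lintegral V1 _)
      refine setLIntegral_congr_fun hV1o.measurableSet fun z hz => ?_
      simp only [hχ1 z (hV1K hz), one_mul]
    have hlim : ∫⁻ z in K, g z ≤ ENNReal.ofReal (3 / 4 * M ^ 2 * Bm) := by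
      have hKV1 : K ⊆ V1 := Metric.self_subset_thickening hδ K
      refine (lintegral_mono_set hKV1).trans (low.trans ?_)
      have k0 : ∀ ε : ℝ, 0 < ε → liminf (fun n => ∫⁻ z in V1, ENNReal.ofReal
          (ρ z * u n z ^ 4)) atTop ≤ ENNReal.ofReal (3 / 4 * M ^ 2 * Bm + ε) := by
        intro ε hε
        refine liminf_le_of_frequently_le' (Eventually.frequently ?_)
        filter_upwards [hup ε hε] with n hn
        exact (hcomp n).trans (ENNReal.ofReal_le_ofReal hn)
      have k1 : Tendsto (fun ε : ℝ => ENNReal.ofReal (3 / 4 * M ^ 2 * Bm + ε)) (𝓝[>] 0)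
          (𝓝 (ENNReal.ofReal (3 / 4 * M ^ 2 * Bm + 0))) := by
        refine (ENNReal.continuous_ofReal.tendsto _).comp ?_
        exact ((continuous_const.add continuous_id).tendsto (0 : ℝ)).mono_left nhdsWithin_le_nhds
      rw [add_zero] at k1
      refine ge_of_tendsto k1 ?_
      filter_upwards [self_mem_nhdsWithin] with ε hε
      exact k0 ε hε
    refine hlim.trans ?_
    rw [ENNReal.ofReal_mul (by positivity), hhd, lintegral_const_mul' _ _ ENNReal.ofReal_ne_top]
    refine mul_le_mul_right ?_ _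
    -- `Bm ≤ ∫_V ρ m`
    have iB : Integrable fun z => χ z * ρ z * m z := by
      have k1 : IntegrableOn m (tsupport χ) := by
        have hfin : IsFiniteMeasure (volume.restrict (tsupport χ)) :=
          ⟨by rw [Measure.restrict_apply_univ]; exact (show IsCompact (tsupport χ) from hχU.2.1).measure_lt_top⟩
        exact (hm _ hχU.2.1 hχU.2.2).integrable one_le_two
      have k2 := bdd _ hχU.2.1 hχU.2.2 m k1
      have k3 : IntegrableOn (fun z => χ z * ρ z * m z) (tsupport χ) := by
        have : IntegrableOn (fun z => χ z * (ρ z * m z)) (tsupport χ) :=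
          Integrable.bdd_mul (c := 1) k2 hχU.1.continuous.aestronglyMeasurable
            (Eventually.of_forall fun z => by
              rw [Real.norm_eq_abs, abs_of_nonneg (hχ0 z)]; exact hχle z)
        refine this.congr (Eventually.of_forall fun z => ?_)
        show χ z * (ρ z * m z) = χ z * ρ z * m z
        ring
      refine (integrableOn_iff_integrable_of_support_subset ?_).1 k3
      intro z hz
      by_contra hc
      apply hz
      show χ z * ρ z * m z = 0
      rw [image_eq_zero_of_notMem_tsupport hc]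
      ring
    refine (ofReal_int_le iB).trans ?_
    rw [← lintegral_indicator hV.measurableSet]
    refine lintegral_mono fun z => ?_
    by_cases hz : z ∈ V
    · rw [indicator_of_mem hz]
      rcases le_total 0 (ρ z * m z) with hs | hs
      · refine ENNReal.ofReal_le_ofReal ?_
        calc χ z * ρ z * m z = χ z * (ρ z * m z) := by ring
          _ ≤ 1 * (ρ z * m z) := mul_le_mul_of_nonneg_right (hχle z) hs
          _ = _ := one_mul _
      · have : χ z * ρ z * m z ≤ 0 := by
          have := mul_nonpos_of_nonneg_of_nonpos (hχ0 z) hs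
          rw [mul_assoc]
          exact this
        simp only [ENNReal.ofReal_of_nonpos this]
        exact bot_le
    · rw [indicator_of_notMem hz]
      have : χ z = 0 := image_eq_zero_of_notMem_tsupport fun h => hz (hχ.2.2 h)
      simp [this]
  filter_upwards [key, ae_restrict_mem hU.measurableSet] with z hz hzU
  have hp := par_le e (ν z)
  have hr := hρ0 z hzU
  rcases le_or_gt (m z) 0 with hmz | hmz
  · have k1 : m z * (4 - 2 * par e (ν z)) ≤ 0 :=
      mul_nonpos_of_nonpos_of_nonneg hmz (by linarith)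
    exact k1.trans (sq_nonneg M)
  · have k1 : ρ z * GD m e ν z ≤ 3 / 4 * M ^ 2 * (ρ z * m z) := by
      have k2 : g z ≤ hh z := hz
      rw [hg, hhd] at k2
      simp only [] at k2
      rw [← ENNReal.ofReal_mul (by positivity)] at k2
      exact (ENNReal.ofReal_le_ofReal_iff (by positivity)).1 k2
    unfold GD at k1
    have k3 : (ρ z * m z) * (m z * (3 - 3 / 2 * par e (ν z))) ≤ (ρ z * m z) * (3 / 4 * M ^ 2) := by
      calc (ρ z * m z) * (m z * (3 - 3 / 2 * par e (ν z))) =
          ρ z * (m z ^ 2 * (3 - 3 / 2 * par e (ν z))) := by ring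
        _ ≤ 3 / 4 * M ^ 2 * (ρ z * m z) := k1
        _ = _ := by ring
    have k4 := le_of_mul_le_mul_left k3 (mul_pos hr hmz)
    nlinarith

/-- **Main theorem.** -/
theorem main [IsMarkovKernel ν] {Ω : Set ℂ} {a : ℂ → ℝ} {h : ℕ → ℝ}
    {u : ℕ → ℂ → ℝ} (he : Measurable e) (h1 : ∀ y, ‖e y‖ = 1)
    (hm : ∀ K : Set ℂ, IsCompact K → K ⊆ Ω → MemLp m 2 (volume.restrict K))
    (H : RawG Ω a h u (MM m e ν)) {U : Set ℂ} (hU : IsOpen U) (hUΩ : U ⊆ Ω) {M : ℝ}
    (hM : ∃ᶠ n in atTop, ∀ z ∈ U, |u n z| ≤ M) :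
    ∀ᵐ z ∂(volume.restrict U), m z * (4 - 2 * par e (ν z)) ≤ M ^ 2 := by
  obtain ⟨σ, hσ, hb⟩ := extraction_of_frequently_atTop hM
  exact main_all hU he h1 (fun K hK hKU => hm K hK (hKU.trans hUΩ)) (H.sub hUΩ hσ) hb

end Pool.Agent.U524.SN
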