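import Pool.Agent.U524.SN.Int

/-! The even moments of bounded solutions. -/

set_option autoImplicit false
open MeasureTheory Filter Topology Complex Set
open scoped ContDiff

namespace Pool.Agent.U524.SN

noncomputable section

variable {U : Set ℂ}

theorem ibp1k (hU : IsOpen U) (k : ℕ) {χ u : ℂ → ℝ} (hχ : ContDiff ℝ ∞ χ)
    (hc : HasCompactSupport χ) (hs : tsupport χ ⊆ U) (hu : ContDiffOn ℝ ∞ u U) (a : ℂ) :
    ∫ z, χ z * ((2 * k + 1 : ℝ) * (u z ^ (2 * k) * D a u z ^ 2) +
        u z ^ (2 * k + 1) * D a (D a u) z) =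
      -∫ z, D a χ z * (u z ^ (2 * k + 1) * D a u z) := by
  have hG : ContDiffOn ℝ ∞ (fun z => u z ^ (2 * k + 1) * D a u z) U :=
    (hu.pow (2 * k + 1)).mul (D_smooth hU hu a)
  have hDG : ContinuousOn (D a (fun z => u z ^ (2 * k + 1) * D a u z)) U :=
    (D_smooth hU hG a).continuousOn
  have h := integral_mul_fderiv_eq_neg_fderiv_mul_of_integrable (f := χ)
    (g := fun z => u z ^ (2 * k + 1) * D a u z) (v := a) (μ := volume)
    (int_prod hU (D_cont hχ a) (D_supp hc a) ((D_tsupp a).trans hs) hG.continuousOn)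
    (int_prod hU hχ.continuous hc hs hDG)
    (int_prod hU hχ.continuous hc hs hG.continuousOn)
    (fun x _ => hχ.differentiable (by simp) x)
    (fun x hx => diffAt hU hG (hs hx))
  refine Eq.trans ?_ h
  refine integral_congr_ae (Eventually.of_forall fun z => ?_)
  by_cases hz : z ∈ tsupport χ
  · have hzU := hs hz
    have e1 : fderiv ℝ (fun z => u z ^ (2 * k + 1) * D a u z) z a =
        D a (fun z => u z ^ (2 * k + 1) * D a u z) z := rfl
    have e2 : D a (fun z => u z ^ (2 * k + 1)) z =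
        ((2 * k + 1 : ℝ) * u z ^ (2 * k)) * D a u z := by
      have := D_comp (F := fun t : ℝ => t ^ (2 * k + 1)) (F' := (2 * k + 1 : ℝ) * u z ^ (2 * k))
        (diffAt hU hu hzU) (by
          have := hasDerivAt_pow (2 * k + 1) (u z)
          push_cast at this
          simpa using this) a
      exact this
    show χ z * _ = χ z * fderiv ℝ (fun z => u z ^ (2 * k + 1) * D a u z) z a
    rw [e1, D_mul (f := fun z => u z ^ (2 * k + 1)) (diffAt hU (hu.pow (2 * k + 1)) hzU)
      (diffAt hU (D_smooth hU hu a) hzU) a, e2]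
    ring
  · show χ z * _ = χ z * _
    rw [image_eq_zero_of_notMem_tsupport hz, zero_mul, zero_mul]

theorem ibpk (hU : IsOpen U) (k : ℕ) {χ u : ℂ → ℝ} (hχ : ContDiff ℝ ∞ χ)
    (hc : HasCompactSupport χ) (hs : tsupport χ ⊆ U) (hu : ContDiffOn ℝ ∞ u U) :
    (2 * k + 1 : ℝ) * (∫ z, χ z * (u z ^ (2 * k) * W u z)) +
        ∫ z, χ z * (u z ^ (2 * k + 1) * L u z) =
      -∫ z, u z ^ (2 * k + 1) * (D 1 χ z * D 1 u z + D I χ z * D I u z) := by
  have h1 := ibp1k hU k hχ hc hs hu 1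
  have h2 := ibp1k hU k hχ hc hs hu I
  have s1 := (D_smooth hU hu 1).continuousOn
  have s2 := (D_smooth hU hu I).continuousOn
  have s3 := (D_smooth hU (D_smooth hU hu 1) 1).continuousOn
  have s4 := (D_smooth hU (D_smooth hU hu I) I).continuousOn
  have s0 := hu.continuousOn
  have i1 : Integrable fun z => χ z * ((2 * k + 1 : ℝ) * (u z ^ (2 * k) * D 1 u z ^ 2) +
      u z ^ (2 * k + 1) * D 1 (D 1 u) z) :=
    int_prod hU hχ.continuous hc hs ((continuousOn_const.mul ((s0.pow (2 * k)).mul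
      (s1.pow 2))).add ((s0.pow (2 * k + 1)).mul s3))
  have i2 : Integrable fun z => χ z * ((2 * k + 1 : ℝ) * (u z ^ (2 * k) * D I u z ^ 2) +
      u z ^ (2 * k + 1) * D I (D I u) z) :=
    int_prod hU hχ.continuous hc hs ((continuousOn_const.mul ((s0.pow (2 * k)).mul
      (s2.pow 2))).add ((s0.pow (2 * k + 1)).mul s4))
  have i3 : Integrable fun z => χ z * (u z ^ (2 * k) * W u z) :=
    int_prod hU hχ.continuous hc hs ((s0.pow (2 * k)).mul ((s1.pow 2).add (s2.pow 2)))
  have i4 : Integrable fun z => χ z * (u z ^ (2 * k + 1) * L u z) :=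
    int_prod hU hχ.continuous hc hs ((s0.pow (2 * k + 1)).mul (s3.add s4))
  have i5 : Integrable fun z => D 1 χ z * (u z ^ (2 * k + 1) * D 1 u z) :=
    int_prod hU (D_cont hχ 1) (D_supp hc 1) ((D_tsupp 1).trans hs) ((s0.pow (2 * k + 1)).mul s1)
  have i6 : Integrable fun z => D I χ z * (u z ^ (2 * k + 1) * D I u z) :=
    int_prod hU (D_cont hχ I) (D_supp hc I) ((D_tsupp I).trans hs) ((s0.pow (2 * k + 1)).mul s2)
  rw [← integral_const_mul, ← integral_add (i3.const_mul _) i4]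
  have e1 : (∫ z, (2 * k + 1 : ℝ) * (χ z * (u z ^ (2 * k) * W u z)) +
        χ z * (u z ^ (2 * k + 1) * L u z)) =
      (∫ z, χ z * ((2 * k + 1 : ℝ) * (u z ^ (2 * k) * D 1 u z ^ 2) +
        u z ^ (2 * k + 1) * D 1 (D 1 u) z)) +
      ∫ z, χ z * ((2 * k + 1 : ℝ) * (u z ^ (2 * k) * D I u z ^ 2) +
        u z ^ (2 * k + 1) * D I (D I u) z) := by
    rw [← integral_add i1 i2]
    refine integral_congr_ae (Eventually.of_forall fun z => ?_)
    simp only [W, L]
    ring
  have e2 : (∫ z, u z ^ (2 * k + 1) * (D 1 χ z * D 1 u z + D I χ z * D I u z)) =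
      (∫ z, D 1 χ z * (u z ^ (2 * k + 1) * D 1 u z)) +
        ∫ z, D I χ z * (u z ^ (2 * k + 1) * D I u z) := by
    rw [← integral_add i5 i6]
    refine integral_congr_ae (Eventually.of_forall fun z => ?_)
    simp only []
    ring
  rw [e1, e2, h1, h2]
  ring

/-- **Even moments of bounded solutions.** -/
theorem moment (hU : IsOpen U) (k : ℕ) {ρ : ℂ → ℝ} (hρ : ContDiffOn ℝ ∞ ρ U)
    (hρ0 : ∀ z ∈ U, 0 < ρ z)
    {χ : ℂ → ℝ} (hχ : ContDiff ℝ ∞ χ) (hc : HasCompactSupport χ) (hs : tsupport χ ⊆ U)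
    (hχ0 : ∀ z, 0 ≤ χ z) (M : ℝ) {ε : ℝ} (hε : 0 < ε) :
    ∀ᶠ lam : ℝ in atTop, ∀ u : ℂ → ℝ, ContDiffOn ℝ ∞ u U →
      (∀ z ∈ U, L u z + lam * (ρ z * u z) = 0) → (∀ z ∈ U, |u z| ≤ M) →
      (2 * k + 2 : ℝ) * (∫ z, χ z * (ρ z * u z ^ (2 * k + 2))) ≤
        (2 * k + 1 : ℝ) * (M ^ 2 * ∫ z, χ z * (ρ z * u z ^ (2 * k))) + ε := by
  have hρc := hρ.continuousOn
  have hK : IsCompact (tsupport χ) := hc
  have iρ : Integrable fun z => χ z * ρ z := int_prod hU hχ.continuous hc hs hρc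
  set c : ℝ := 2 * k + 1 with hcdef
  have hc0 : 0 < c := by positivity
  have hcc : (2 * k + 2 : ℝ) = c + 1 := by rw [hcdef]; ring
  set A₁ : ℝ := ∫ z, χ z * ρ z with hA₁
  have hpos : ∀ z, 0 ≤ χ z * ρ z := by
    intro z
    by_cases hz : z ∈ tsupport χ
    · exact mul_nonneg (hχ0 z) (hρ0 z (hs hz)).le
    · rw [image_eq_zero_of_notMem_tsupport hz, zero_mul]
  have hA₁0 : 0 ≤ A₁ := integral_nonneg hpos
  have hMk : 0 ≤ M ^ 2 * M ^ (2 * k) := by
    rw [pow_mul]
    positivity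
  set ε' : ℝ := ε / (2 * c * (M ^ 2 * M ^ (2 * k) * A₁ + 1)) with hε'
  have hden : 0 < 2 * c * (M ^ 2 * M ^ (2 * k) * A₁ + 1) := by
    have : 0 ≤ M ^ 2 * M ^ (2 * k) * A₁ := mul_nonneg hMk hA₁0
    positivity
  have hε'0 : 0 < ε' := div_pos hε hden
  obtain ⟨R, hR⟩ : ∃ R : ℝ, ∀ z ∈ tsupport χ, ρ z ≤ R := by
    obtain ⟨R, hR⟩ := (hK.image_of_continuousOn (hρc.mono hs)).bddAbove
    exact ⟨R, fun z hz => hR ⟨z, hz, rfl⟩⟩
  set R' : ℝ := max R 0 with hR'
  have hR'0 : 0 ≤ R' := le_max_right _ _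
  set S : ℝ := √((1 + ε') * (R' * M ^ 2)) with hS
  have hSsq : S ^ 2 = (1 + ε') * (R' * M ^ 2) := Real.sq_sqrt (by positivity)
  have hwc : Continuous fun z => √(W χ z) :=
    Real.continuous_sqrt.comp (((D_cont hχ 1).pow 2).add ((D_cont hχ I).pow 2))
  have hwi : Integrable fun z => √(W χ z) := by
    refine hwc.integrable_of_hasCompactSupport (HasCompactSupport.intro hK fun z hz => ?_)
    unfold W
    rw [D_out hz, D_out hz]
    simp
  set C : ℝ := |M| ^ (2 * k + 1) * (S * ∫ z, √(W χ z)) with hC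
  have c1 : ∀ᶠ lam : ℝ in atTop, C / √lam ≤ ε / 2 := by
    have h1 : Tendsto (fun lam : ℝ => C / √lam) atTop (𝓝 0) :=
      tendsto_const_nhds.div_atTop Real.tendsto_sqrt_atTop
    exact (h1.eventually_lt_const (by positivity)).mono fun _ h => h.le
  filter_upwards [grad_loc hU hK hs hρ hρ0 hε'0, c1, eventually_gt_atTop 0] with lam hg c1 hlam
  intro u hu heq hM
  have hgr := hg u hu heq M hM
  have s0 := hu.continuousOn
  have s1 := (D_smooth hU hu 1).continuousOn
  have s2 := (D_smooth hU hu I).continuousOn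
  have i2 : Integrable fun z => χ z * (ρ z * u z ^ (2 * k)) :=
    int_prod hU hχ.continuous hc hs (hρc.mul (s0.pow (2 * k)))
  have i4 : Integrable fun z => χ z * (ρ z * u z ^ (2 * k + 2)) :=
    int_prod hU hχ.continuous hc hs (hρc.mul (s0.pow (2 * k + 2)))
  have iW : Integrable fun z => χ z * (u z ^ (2 * k) * W u z) :=
    int_prod hU hχ.continuous hc hs ((s0.pow (2 * k)).mul ((s1.pow 2).add (s2.pow 2)))
  set A : ℝ := ∫ z, χ z * (ρ z * u z ^ (2 * k)) with hA
  set J : ℝ := ∫ z, χ z * (ρ z * u z ^ (2 * k + 2)) with hJ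
  have hev : ∀ z, 0 ≤ u z ^ (2 * k) := fun z => by
    rw [pow_mul]
    positivity
  have hAA : A ≤ M ^ (2 * k) * A₁ := by
    rw [hA, hA₁, ← integral_const_mul]
    refine integral_mono i2 (iρ.const_mul _) fun z => ?_
    by_cases hz : z ∈ tsupport χ
    · have k1 : u z ^ (2 * k) ≤ M ^ (2 * k) := by
        have h2 : |u z| ^ (2 * k) ≤ M ^ (2 * k) :=
          pow_le_pow_left₀ (abs_nonneg _) (hM z (hs hz)) (2 * k)
        rwa [Even.pow_abs (even_two_mul k)] at h2
      calc χ z * (ρ z * u z ^ (2 * k)) = (χ z * ρ z) * u z ^ (2 * k) := by ring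
        _ ≤ (χ z * ρ z) * M ^ (2 * k) := mul_le_mul_of_nonneg_left k1 (hpos z)
        _ = M ^ (2 * k) * (χ z * ρ z) := by ring
    · simp [image_eq_zero_of_notMem_tsupport hz]
  have hJ0 : 0 ≤ J := integral_nonneg fun z => by
    show 0 ≤ χ z * (ρ z * u z ^ (2 * k + 2))
    rw [← mul_assoc]
    refine mul_nonneg (hpos z) ?_
    rw [pow_add]
    exact mul_nonneg (hev z) (sq_nonneg _)
  -- the gradient estimate
  have hG : ∫ z, χ z * (u z ^ (2 * k) * W u z) ≤ lam * ((1 + ε') * (M ^ 2 * A - J)) := by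
    have e : lam * ((1 + ε') * (M ^ 2 * A - J)) = ∫ z, lam * ((1 + ε') *
        (M ^ 2 * (χ z * (ρ z * u z ^ (2 * k))) - χ z * (ρ z * u z ^ (2 * k + 2)))) := by
      rw [integral_const_mul, integral_const_mul, integral_sub (i2.const_mul _) i4,
        integral_const_mul]
    rw [e]
    refine integral_mono iW ((((i2.const_mul _).sub i4).const_mul _).const_mul _) fun z => ?_
    by_cases hz : z ∈ tsupport χ
    · have k1 := hgr z hz
      have k2 : 0 ≤ χ z * u z ^ (2 * k) := mul_nonneg (hχ0 z) (hev z)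
      calc χ z * (u z ^ (2 * k) * W u z) = (χ z * u z ^ (2 * k)) * W u z := by ring
        _ ≤ (χ z * u z ^ (2 * k)) * (lam * ((1 + ε') * (ρ z * (M ^ 2 - u z ^ 2)))) :=
            mul_le_mul_of_nonneg_left k1 k2
        _ = lam * ((1 + ε') *
          (M ^ 2 * (χ z * (ρ z * u z ^ (2 * k))) - χ z * (ρ z * u z ^ (2 * k + 2)))) := by ring
    · simp [image_eq_zero_of_notMem_tsupport hz]
  -- integration by parts
  have hI := ibpk hU k hχ hc hs hu
  have hL : ∫ z, χ z * (u z ^ (2 * k + 1) * L u z) = -(lam * J) := by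
    rw [hJ, ← integral_const_mul, ← integral_neg]
    refine integral_congr_ae (Eventually.of_forall fun z => ?_)
    by_cases hz : z ∈ tsupport χ
    · have k1 := heq z (hs hz)
      have k2 : L u z = -(lam * (ρ z * u z)) := by linarith
      simp only [k2]
      ring
    · simp [image_eq_zero_of_notMem_tsupport hz]
  have hE : |∫ z, u z ^ (2 * k + 1) * (D 1 χ z * D 1 u z + D I χ z * D I u z)| ≤ C * √lam := by
    have hb : ∀ z, ‖u z ^ (2 * k + 1) * (D 1 χ z * D 1 u z + D I χ z * D I u z)‖ ≤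
        (|M| ^ (2 * k + 1) * (√lam * S)) * √(W χ z) := by
      intro z
      by_cases hz : z ∈ tsupport χ
      · have hzU := hs hz
        rw [norm_mul, norm_pow, Real.norm_eq_abs, Real.norm_eq_abs]
        have k1 : |u z| ^ (2 * k + 1) ≤ |M| ^ (2 * k + 1) :=
          pow_le_pow_left₀ (abs_nonneg _) ((hM z hzU).trans (le_abs_self _)) (2 * k + 1)
        have k2 : |D 1 χ z * D 1 u z + D I χ z * D I u z| ≤ √lam * S * √(W χ z) := by
          refine abs_le_of_sq_le_sq ?_ (by positivity)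
          have a1 : (D 1 χ z * D 1 u z + D I χ z * D I u z) ^ 2 ≤ W χ z * W u z := by
            unfold W
            nlinarith [sq_nonneg (D 1 χ z * D I u z - D I χ z * D 1 u z)]
          have a2 : W u z ≤ lam * S ^ 2 := by
            refine (hgr z hz).trans ?_
            rw [hSsq]
            refine mul_le_mul_of_nonneg_left ?_ hlam.le
            refine mul_le_mul_of_nonneg_left ?_ (by linarith)
            have b1 : M ^ 2 - u z ^ 2 ≤ M ^ 2 := by linarith [sq_nonneg (u z)]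
            calc ρ z * (M ^ 2 - u z ^ 2) ≤ ρ z * M ^ 2 :=
                  mul_le_mul_of_nonneg_left b1 (hρ0 z hzU).le
              _ ≤ R' * M ^ 2 := mul_le_mul_of_nonneg_right
                  ((hR z hz).trans (le_max_left _ _)) (sq_nonneg _)
          have a3 : (√lam * S * √(W χ z)) ^ 2 = W χ z * (lam * S ^ 2) := by
            rw [mul_pow, mul_pow, Real.sq_sqrt hlam.le,
              Real.sq_sqrt (by unfold W; positivity : 0 ≤ W χ z)]
            ring
          rw [a3]
          exact a1.trans (mul_le_mul_of_nonneg_left a2 (by unfold W; positivity))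
        calc |u z| ^ (2 * k + 1) * |D 1 χ z * D 1 u z + D I χ z * D I u z| ≤
            |M| ^ (2 * k + 1) * (√lam * S * √(W χ z)) :=
              mul_le_mul k1 k2 (abs_nonneg _) (by positivity)
          _ = _ := by ring
      · rw [D_out hz, D_out hz]
        simp only [zero_mul, add_zero, mul_zero, norm_zero]
        positivity
    have h1 := norm_integral_le_of_norm_le (hwi.const_mul (|M| ^ (2 * k + 1) * (√lam * S)))
      (Eventually.of_forall hb)
    rw [integral_const_mul, Real.norm_eq_abs] at h1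
    refine h1.trans (le_of_eq ?_)
    rw [hC]
    ring
  rw [hL] at hI
  have hE' := (abs_le.1 hE).1
  have hE'' := (abs_le.1 hE).2
  have hsl : 0 < √lam := Real.sqrt_pos.2 hlam
  have hll : √lam * √lam = lam := Real.mul_self_sqrt hlam.le
  have key : lam * J ≤ lam * (c * ((1 + ε') * (M ^ 2 * A - J))) + C * √lam := by
    have : lam * J = c * (∫ z, χ z * (u z ^ (2 * k) * W u z)) +
        ∫ z, u z ^ (2 * k + 1) * (D 1 χ z * D 1 u z + D I χ z * D I u z) := by linarith
    rw [this]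
    have e : lam * (c * ((1 + ε') * (M ^ 2 * A - J))) =
        c * (lam * ((1 + ε') * (M ^ 2 * A - J))) := by ring
    rw [e]
    have := mul_le_mul_of_nonneg_left hG hc0.le
    linarith
  have key2 : J ≤ c * ((1 + ε') * (M ^ 2 * A - J)) + C / √lam := by
    have e : C * √lam = lam * (C / √lam) := by
      rw [mul_div_assoc', eq_div_iff hsl.ne']
      rw [mul_assoc, hll]
      ring
    rw [e, ← mul_add] at key
    exact le_of_mul_le_mul_left key hlam
  have k3 : c * (ε' * (M ^ 2 * A - J)) ≤ ε / 2 := by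
    have a1 : M ^ 2 * A - J ≤ M ^ 2 * M ^ (2 * k) * A₁ := by
      have := mul_le_mul_of_nonneg_left hAA (sq_nonneg M)
      have e : M ^ 2 * (M ^ (2 * k) * A₁) = M ^ 2 * M ^ (2 * k) * A₁ := by ring
      linarith
    have a2 : c * (ε' * (M ^ 2 * A - J)) ≤ c * (ε' * (M ^ 2 * M ^ (2 * k) * A₁ + 1)) := by
      refine mul_le_mul_of_nonneg_left ?_ hc0.le
      exact mul_le_mul_of_nonneg_left (by linarith) hε'0.le
    have a3 : c * (ε' * (M ^ 2 * M ^ (2 * k) * A₁ + 1)) = ε / 2 := by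
      rw [hε']
      have h0 : M ^ 2 * M ^ (2 * k) * A₁ + 1 ≠ 0 := by
        intro h
        rw [h, mul_zero] at hden
        exact lt_irrefl _ hden
      have h1 : c ≠ 0 := hc0.ne'
      field_simp
    linarith
  have e : c * ((1 + ε') * (M ^ 2 * A - J)) = c * (M ^ 2 * A) - c * J +
      c * (ε' * (M ^ 2 * A - J)) := by ring
  rw [e] at key2
  rw [hcc]
  linarith

end

end Pool.Agent.U524.SN
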