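import Pool.Agent.U524.SN.PW

/-!
# Large values: areas
-/

set_option autoImplicit false
open MeasureTheory Filter Topology ProbabilityTheory
open scoped ContDiff ENNReal BoundedContinuousFunction

namespace Pool.Agent.U524.SN

open Pool.Agent.W745.RW (lap)
open Pool.Agent.N661.BR
open Pool.Agent.U26.SB (lwave lwave_meas lwave_stat lwave_zero lin_meas lin_i4 ConvergesAlong
  law_tendsto pm fin_open resc_zero)

section fin

variable {Z : Type*} [MeasurableSpace Z] {ν : Measure Z} [IsFiniteMeasure ν]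

theorem fin_bcf (h0 : ν ≠ 0) {X : ℕ → Z → ℝ} (hX : ∀ n, AEMeasurable (X n) ν)
    {ρ : Measure ℝ} [IsProbabilityMeasure ρ]
    (h : ∀ t : ℝ, Tendsto (fun n => (((ν.real Set.univ)⁻¹ : ℝ) : ℂ) *
      ∫ z, Complex.exp (Complex.I * ((t * X n z : ℝ) : ℂ)) ∂ν) atTop
      (𝓝 (∫ x, Complex.exp (Complex.I * ((t * x : ℝ) : ℂ)) ∂ρ))) (g : ℝ →ᵇ ℝ) :
    Tendsto (fun n => (ν.real Set.univ)⁻¹ * ∫ z, g (X n z) ∂ν) atTop (𝓝 (∫ x, g x ∂ρ)) := by
  have hne : NeZero ν := ⟨h0⟩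
  set Q : Measure Z := (ν Set.univ)⁻¹ • ν with hQ
  have hQp : IsProbabilityMeasure Q := isProbabilityMeasureSMul
  have hi : ∀ g : Z → ℂ, ∫ z, g z ∂Q = (((ν.real Set.univ)⁻¹ : ℝ) : ℂ) * ∫ z, g z ∂ν := by
    intro g
    rw [hQ, integral_smul_measure, ENNReal.toReal_inv, Complex.real_smul]
    rfl
  have hir : ∀ g : Z → ℝ, ∫ z, g z ∂Q = (ν.real Set.univ)⁻¹ * ∫ z, g z ∂ν := by
    intro g
    rw [hQ, integral_smul_measure, ENNReal.toReal_inv, smul_eq_mul]
    rfl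
  have hXQ : ∀ n, AEMeasurable (X n) Q := fun n => (hX n).smul_measure _
  have h' : ∀ t : ℝ, Tendsto (fun n => ∫ z, Complex.exp (Complex.I * ((t * X n z : ℝ) : ℂ)) ∂Q)
      atTop (𝓝 (∫ x, Complex.exp (Complex.I * ((t * x : ℝ) : ℂ)) ∂ρ)) := by
    intro t
    simp_rw [hi]
    exact h t
  have h1 := (ProbabilityMeasure.tendsto_iff_forall_integral_tendsto.1 (law_tendsto hXQ h')) g
  refine h1.congr fun n => ?_
  show ∫ x, g x ∂(Q.map (X n)) = _
  rw [integral_map (hXQ n) g.continuous.aestronglyMeasurable, hir]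

/-- the truncated square -/
noncomputable def tr (M : ℝ) : ℝ →ᵇ ℝ :=
  BoundedContinuousFunction.ofNormedAddCommGroup (fun x => min (x ^ 2) (M ^ 2))
    ((continuous_pow 2).min continuous_const) (M ^ 2) fun x => by
      rw [Real.norm_eq_abs, abs_of_nonneg (le_min (sq_nonneg _) (sq_nonneg _))]
      exact min_le_right _ _

theorem tr_apply (M x : ℝ) : tr M x = min (x ^ 2) (M ^ 2) := rfl

theorem trunc_le (h0 : ν ≠ 0) {μ : Measure MW} [IsProbabilityMeasure μ] (hs : IsStationary μ)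
    {X : ℕ → Z → ℝ} (hX : ∀ n, AEMeasurable (X n) ν)
    (h : ∀ τ : ℝ, Tendsto (fun n => (((ν.real Set.univ)⁻¹ : ℝ) : ℂ) *
      ∫ z, Complex.exp (Complex.I * ((τ * X n z : ℝ) : ℂ)) ∂ν) atTop
      (𝓝 (∫ f : MW, Complex.exp (Complex.I * ((τ * f 0 : ℝ) : ℂ)) ∂μ))) {M : ℝ}
    (hsm : Tendsto (fun n => ν.real {z | M < |X n z|}) atTop (𝓝 0)) {ε : ℝ} (hε : 0 < ε) :
    ∀ᶠ n in atTop, ∫ z, min (X n z ^ 2) (M ^ 2) ∂ν ≤ (M ^ 2 / 2 + ε) * ν.real Set.univ := by
  have hl : Measurable fun f : MW => f 0 := meas_eval 0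
  have hρp : IsProbabilityMeasure (μ.map fun f : MW => f 0) :=
    Measure.isProbabilityMeasure_map hl.aemeasurable
  have hu0 : ν Set.univ ≠ 0 := by simpa using h0
  have hpos : 0 < ν.real Set.univ := ENNReal.toReal_pos hu0 (measure_ne_top _ _)
  have hch : ∀ s : ℝ, Tendsto (fun n => (((ν.real Set.univ)⁻¹ : ℝ) : ℂ) *
      ∫ z, Complex.exp (Complex.I * ((s * X n z : ℝ) : ℂ)) ∂ν) atTop
      (𝓝 (∫ x, Complex.exp (Complex.I * ((s * x : ℝ) : ℂ)) ∂(μ.map fun f : MW => f 0))) := by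
    intro s
    rw [integral_map hl.aemeasurable (by fun_prop)]
    exact h s
  have hG : IsOpen {x : ℝ | M < |x|} := isOpen_lt continuous_const continuous_abs
  have ha : (μ.map fun f : MW => f 0).real {x : ℝ | M < |x|} = 0 := by
    by_contra hne
    have hp : 0 < (μ.map fun f : MW => f 0).real {x : ℝ | M < |x|} :=
      lt_of_le_of_ne measureReal_nonneg (Ne.symm hne)
    have h1 := fin_open h0 hX hch hG le_rfl (half_pos hp)
    set a := (μ.map fun f : MW => f 0).real {x : ℝ | M < |x|} with ha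
    have h2 : 0 < (a - a / 2) * ν.real Set.univ := mul_pos (by linarith) hpos
    obtain ⟨n, hn1, hn2⟩ := (h1.and (hsm.eventually_lt_const h2)).exists
    exact absurd hn1 (not_le.2 hn2)
  have hb : ∀ᵐ f : MW ∂μ, |f 0| ≤ M := by
    rw [ae_iff]
    rw [map_measureReal_apply hl hG.measurableSet, measureReal_def,
      ENNReal.toReal_eq_zero_iff] at ha
    rcases ha with ha | ha
    · have e : {f : MW | ¬ |f 0| ≤ M} = (fun f : MW => f 0) ⁻¹' {x : ℝ | M < |x|} := by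
        ext f
        show ¬ |f 0| ≤ M ↔ M < |f 0|
        exact not_le
      rw [e]
      exact ha
    · exact absurd ha (measure_ne_top _ _)
  have h2 := rwave hs hb 0
  norm_num at h2
  have h3 := fin_bcf h0 hX hch (tr M)
  have h4 : ∫ x, tr M x ∂(μ.map fun f : MW => f 0) ≤ M ^ 2 / 2 := by
    rw [integral_map hl.aemeasurable (tr M).continuous.aestronglyMeasurable]
    have e : ∫ f : MW, tr M (f 0) ∂μ = ∫ f : MW, f 0 ^ 2 ∂μ := by
      refine integral_congr_ae ?_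
      filter_upwards [hb] with f hf
      rw [tr_apply]
      refine min_eq_left ?_
      have := pow_le_pow_left₀ (abs_nonneg _) hf 2
      rwa [sq_abs] at this
    rw [e]
    linarith
  filter_upwards [h3.eventually_lt_const (show _ < M ^ 2 / 2 + ε by linarith)] with n hn
  have h5 : ∫ z, min (X n z ^ 2) (M ^ 2) ∂ν = ∫ z, tr M (X n z) ∂ν := rfl
  rw [h5]
  rw [inv_mul_lt_iff₀ hpos] at hn
  linarith

/-- open events for linear functionals -/
theorem fin_linG (h0 : ν ≠ 0) {μ : Measure MW} [IsProbabilityMeasure μ] {k : ℕ} (w : Fin k → ℂ)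
    (t : Fin k → ℝ) {X : ℕ → Z → Fin k → ℝ} (hX : ∀ n j, AEMeasurable (fun z => X n z j) ν)
    (h : ∀ τ : Fin k → ℝ, Tendsto (fun n => (((ν.real Set.univ)⁻¹ : ℝ) : ℂ) *
      ∫ z, Complex.exp (Complex.I * ((∑ j, τ j * X n z j : ℝ) : ℂ)) ∂ν) atTop
      (𝓝 (∫ f, Complex.exp (Complex.I * (lin w τ f : ℝ)) ∂μ))) {G : Set ℝ} (hG : IsOpen G)
    (hμ : 0 < μ {f | lin w t f ∈ G}) :
    ∃ c : ℝ, 0 < c ∧ ∀ᶠ n in atTop, c ≤ ν.real {z | (∑ j, t j * X n z j) ∈ G} := by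
  have hl := lin_meas w t
  have hρp : IsProbabilityMeasure (μ.map (lin w t)) := Measure.isProbabilityMeasure_map hl.aemeasurable
  have hXs : ∀ n, AEMeasurable (fun z => ∑ j, t j * X n z j) ν := fun n =>
    Finset.aemeasurable_fun_sum _ fun j _ => (hX n j).const_mul (t j)
  have hu0 : ν Set.univ ≠ 0 := by simpa using h0
  have hpos : 0 < ν.real Set.univ := ENNReal.toReal_pos hu0 (measure_ne_top _ _)
  have hch : ∀ s : ℝ, Tendsto (fun n => (((ν.real Set.univ)⁻¹ : ℝ) : ℂ) *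
      ∫ z, Complex.exp (Complex.I * ((s * ∑ j, t j * X n z j : ℝ) : ℂ)) ∂ν) atTop
      (𝓝 (∫ x, Complex.exp (Complex.I * ((s * x : ℝ) : ℂ)) ∂(μ.map (lin w t)))) := by
    intro s
    have h1 := h fun j => s * t j
    rw [integral_map hl.aemeasurable (by fun_prop)]
    have e1 : ∀ f : MW, lin w (fun j => s * t j) f = s * lin w t f := by
      intro f
      show ∑ j, s * t j * f (w j) = s * ∑ j, t j * f (w j)
      rw [Finset.mul_sum]
      exact Finset.sum_congr rfl fun j _ => by ring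
    have e2 : ∀ n z, ∑ j, s * t j * X n z j = s * ∑ j, t j * X n z j := by
      intro n z
      rw [Finset.mul_sum]
      exact Finset.sum_congr rfl fun j _ => by ring
    simp only [e1, e2] at h1
    exact h1
  have hr : (μ.map (lin w t)).real G = μ.real {f | lin w t f ∈ G} :=
    map_measureReal_apply hl hG.measurableSet
  have ha : 0 < μ.real {f | lin w t f ∈ G} := ENNReal.toReal_pos hμ.ne' (measure_ne_top _ _)
  set a := μ.real {f | lin w t f ∈ G} with hadef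
  refine ⟨(a - a / 2) * ν.real Set.univ, mul_pos (by linarith) hpos, ?_⟩
  exact fin_open h0 hXs hch hG hr.ge (half_pos ha)

end fin

theorem area_lin {σ : ℕ → ℕ} {χ : ℝ → ℝ} {Ω : Set ℂ} (ho : IsOpen Ω) (hb : Bornology.IsBounded Ω)
    (hne : Ω.Nonempty) (hχ : IsCutoff χ) {lam : ℕ → ℝ} (hl : ∀ n, 0 < lam n) {u : ℕ → ℂ → ℝ}
    (hu : ∀ n, ContDiffOn ℝ ∞ (u n) Ω) {μ : Measure MW} [IsProbabilityMeasure μ]
    (h : ConvergesAlong σ χ Ω lam u μ) {k : ℕ} (w : Fin k → ℂ) (t : Fin k → ℝ)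
    {G : Set ℝ} (hG : IsOpen G) (hμ : 0 < μ {f | lin w t f ∈ G}) :
    ∃ c : ℝ, 0 < c ∧ ∀ᶠ n in atTop,
      c ≤ volume.real {z | z ∈ Ω ∧ (∑ j, t j * resc χ Ω (lam (σ n)) (u (σ n)) z (w j)) ∈ G} := by
  have hfin : volume Ω ≠ ⊤ := hb.measure_lt_top.ne
  have hf : IsFiniteMeasure (volume.restrict Ω) :=
    ⟨by rw [Measure.restrict_apply_univ]; exact hfin.lt_top⟩
  have h0 : (volume.restrict Ω) ≠ 0 := by
    rw [Ne, Measure.restrict_eq_zero]
    exact (ho.measure_pos volume hne).ne'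
  have hun : (volume.restrict Ω).real Set.univ = volume.real Ω := by
    rw [measureReal_restrict_apply_univ]
  have hr : ∀ A : Set ℂ, (volume.restrict Ω).real A = volume.real {z | z ∈ Ω ∧ z ∈ A} := by
    intro A
    rw [measureReal_restrict_apply' ho.measurableSet, Set.inter_comm]
    rfl
  obtain ⟨c, hc, h1⟩ := fin_linG (Z := ℂ) (ν := volume.restrict Ω) h0 (μ := μ) w t
    (X := fun n z j => resc χ Ω (lam (σ n)) (u (σ n)) z (w j))
    (fun n j => (Pool.Agent.N163.BR.resc_meas ho hb hχ (hl _) (hu _).continuousOn _).aemeasurable)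
    (fun τ => by
      have h2 := h k w τ
      rw [hun]
      simpa only [one_div] using h2) hG hμ
  refine ⟨c, hc, ?_⟩
  filter_upwards [h1] with n hn
  rw [hr] at hn
  exact hn

/-- the truncated mass of the limit points -/
theorem area_trunc {σ : ℕ → ℕ} {χ : ℝ → ℝ} {Ω : Set ℂ} (ho : IsOpen Ω)
    (hb : Bornology.IsBounded Ω)
    (hne : Ω.Nonempty) (hχ : IsCutoff χ) {lam : ℕ → ℝ} {u : ℕ → ℂ → ℝ}
    (hu : ∀ n, ContDiffOn ℝ ∞ (u n) Ω) {μ : Measure MW} [IsProbabilityMeasure μ]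
    (hs : IsStationary μ) (h : ConvergesAlong σ χ Ω lam u μ) {M : ℝ}
    (hsm : Tendsto (fun n => volume.real {z | z ∈ Ω ∧ M < |u (σ n) z|}) atTop (𝓝 0))
    {ε : ℝ} (hε : 0 < ε) :
    ∀ᶠ n in atTop, ∫ z in Ω, min (u (σ n) z ^ 2) (M ^ 2) ≤
      (M ^ 2 / 2 + ε) * volume.real Ω := by
  have hfin : volume Ω ≠ ⊤ := hb.measure_lt_top.ne
  have hf : IsFiniteMeasure (volume.restrict Ω) :=
    ⟨by rw [Measure.restrict_apply_univ]; exact hfin.lt_top⟩
  have h0 : (volume.restrict Ω) ≠ 0 := by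
    rw [Ne, Measure.restrict_eq_zero]
    exact (ho.measure_pos volume hne).ne'
  have hun : (volume.restrict Ω).real Set.univ = volume.real Ω := by
    rw [measureReal_restrict_apply_univ]
  have hr : ∀ A : Set ℂ, (volume.restrict Ω).real A = volume.real {z | z ∈ Ω ∧ z ∈ A} := by
    intro A
    rw [measureReal_restrict_apply' ho.measurableSet, Set.inter_comm]
    rfl
  have e0 : ∀ (τ : ℝ) (f : MW), lin (fun _ : Fin 1 => (0 : ℂ)) (fun _ => τ) f = τ * f 0 := by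
    intro τ f
    simp [lin]
  have h1 := trunc_le (Z := ℂ) (ν := volume.restrict Ω) h0 (μ := μ) hs
    (X := fun n z => u (σ n) z)
    (fun n => (hu _).continuousOn.aemeasurable ho.measurableSet)
    (fun τ => by
      have h2 := h 1 (fun _ => 0) fun _ => τ
      simp only [e0, resc_zero hχ, Finset.univ_unique, Finset.sum_singleton] at h2
      rw [hun]
      simpa only [one_div] using h2) (M := M) (by
      refine hsm.congr fun n => ?_
      rw [hr]
      rfl) hε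
  filter_upwards [h1] with n hn
  rw [hun] at hn
  exact hn

/-- **All quantum ergodic sequences**: the truncated mass -/
theorem qe_trunc {Ω : Set ℂ} (hΩ : IsOpen Ω) (hb : Bornology.IsBounded Ω)
    (hne : Ω.Nonempty) {lam : ℕ → ℝ} (hpos : ∀ n, 0 < lam n) (hlam : Tendsto lam atTop atTop)
    {u : ℕ → ℂ → ℝ} (hu : ∀ n, ContDiffOn ℝ ∞ (u n) Ω)
    (heq : ∀ n, ∀ z ∈ Ω, lap (u n) z + lam n * u n z = 0) (hqe : IsQuantumErgodic Ω lam u)
    (M : ℝ) {ε : ℝ} (hε : 0 < ε) :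
    ∃ δ : ℝ, 0 < δ ∧ ∀ᶠ n in atTop, volume.real {z | z ∈ Ω ∧ M < |u n z|} ≤ δ →
      ∫ z in Ω, min (u n z ^ 2) (M ^ 2) ≤ (M ^ 2 / 2 + ε) * volume.real Ω := by
  by_contra hcon
  push Not at hcon
  have hcon' : ∀ j : ℕ, ∃ᶠ n in atTop, volume.real {z | z ∈ Ω ∧ M < |u n z|} ≤ 1 / ((j : ℝ) + 1) ∧
      (M ^ 2 / 2 + ε) * volume.real Ω < ∫ z in Ω, min (u n z ^ 2) (M ^ 2) := fun j =>
    hcon _ (by positivity)
  obtain ⟨τ, hτ, hτP⟩ := Filter.extraction_forall_of_frequently hcon'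
  obtain ⟨χ, hχ⟩ := Pool.Agent.U26.SG.ex_cutoff
  have hlam' : Tendsto (lam ∘ τ) atTop atTop := hlam.comp hτ.tendsto_atTop
  have hqe' : IsQuantumErgodic Ω (lam ∘ τ) (u ∘ τ) := fun φ hφ k =>
    (hqe φ hφ k).comp hτ.tendsto_atTop
  obtain ⟨σ, μ, hσ, hμp, hμ⟩ := Pool.Agent.U26.SG.pl Ω hΩ hb hne (lam ∘ τ) (fun n => hpos _) hlam'
    (u ∘ τ) (fun n => hu _) (fun n => heq _) hqe' χ hχ
  have hex : Pool.Agent.U26.SG.Exh μ := Pool.Agent.U26.SG.exh_planar (lam := lam ∘ τ) (u := u ∘ τ)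
    hΩ hb hne (fun n => hpos _) hlam' (fun n => hu _) (fun n => heq _) hqe' hχ ⟨σ, hσ, hμ⟩
  have h1 := area_trunc (lam := lam ∘ τ) (u := u ∘ τ) (M := M) hΩ hb hne hχ (fun n => hu _) hex.st
    hμ (by
      have h2 : Tendsto (fun n : ℕ => 1 / ((n : ℝ) + 1)) atTop (𝓝 0) :=
        tendsto_one_div_add_atTop_nhds_zero_nat
      refine tendsto_of_tendsto_of_tendsto_of_le_of_le tendsto_const_nhds
        (h2.comp hσ.tendsto_atTop) (fun n => measureReal_nonneg) fun n => ?_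
      exact (hτP (σ n)).1) hε
  obtain ⟨n, hn⟩ := h1.exists
  exact absurd hn (not_le.2 (hτP (σ n)).2)

end Pool.Agent.U524.SN
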