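import Pool.Agent.U524.SN.RW
import Pool.Agent.U26.SG.Pt

/-!
# Large values of the components
-/

set_option autoImplicit false
open MeasureTheory Filter Topology ProbabilityTheory
open scoped ContDiff ENNReal

namespace Pool.Agent.U524.SN

open Pool.Agent.W745.RW (lap)
open Pool.Agent.N661.BR
open Pool.Agent.U26.SB (lwave lwave_meas lwave_stat lwave_zero lin_meas lin_i4 ConvergesAlong)

/-- the even moments of the bounded linear functionals of a random wave -/
theorem lmoment {μ : Measure MW} [IsProbabilityMeasure μ] (hs : IsStationary μ) {k : ℕ}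
    (w : Fin k → ℂ) (t : Fin k → ℝ) {M : ℝ} (h : ∀ᵐ f ∂μ, |lin w t f| ≤ M) (j : ℕ) :
    (2 * j + 2 : ℝ) * ∫ f, lin w t f ^ (2 * j + 2) ∂μ ≤
      (2 * j + 1 : ℝ) * (M ^ 2 * ∫ f, lin w t f ^ (2 * j) ∂μ) := by
  have hm := lwave_meas w t
  have hp : IsProbabilityMeasure (μ.map (lwave w t)) :=
    Measure.isProbabilityMeasure_map hm.aemeasurable
  have hs' := lwave_stat w t hs
  have hb : ∀ᵐ f : MW ∂(μ.map (lwave w t)), |f 0| ≤ M := by
    have hA : MeasurableSet {f : MW | |f 0| ≤ M} :=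
      measurableSet_le (measurable_norm.comp (meas_eval 0)) measurable_const
    rw [ae_map_iff hm.aemeasurable hA]
    filter_upwards [h] with f hf
    rwa [lwave_zero]
  have h1 := rwave hs' hb j
  have e : ∀ n : ℕ, ∫ f : MW, f 0 ^ n ∂(μ.map (lwave w t)) = ∫ f, lin w t f ^ n ∂μ := by
    intro n
    rw [integral_map hm.aemeasurable ((meas_eval 0).pow_const n).aestronglyMeasurable]
    exact integral_congr_ae (Eventually.of_forall fun f => by simp only [lwave_zero])
  rw [e, e] at h1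
  exact h1

/-- the components of the limit points -/
theorem comp_sup {μ : Measure MW}
    (hQ : ∀ v : ℤ →₀ ℝ, Bal v → ∀ l : ℤ,
      ∫⁻ f : MW, ENNReal.ofReal (‖QV v l 1 f 0‖ ^ 2) ∂μ ≤ ENNReal.ofReal (KV v l))
    (hmass : ∫⁻ f : MW, ENNReal.ofReal (f 0 ^ 2) ∂μ ≤ 1)
    {S : Type*} [MeasurableSpace S] {P : Measure S} [IsProbabilityMeasure P]
    {κ : Kernel S MW} [IsMarkovKernel κ] (hκ : P.bind κ = μ) (m : S → ℝ)
    (ν : Kernel S ℝ) [IsMarkovKernel ν] (herg : ∀ᵐ s ∂P, IsStationary (κ s) ∧ IsErgodic (κ s))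
    (hν : ∀ᵐ s ∂P, ∀ w w' : ℂ, ∫ f : MW, f w * f w' ∂(κ s) = m s * cov (ν s) (w - w')) :
    ∀ᵐ s ∂P, ∀ M : ℝ, (∀ᵐ f : MW ∂(κ s), |f 0| ≤ M) →
      m s * (4 - 2 * parallel (ν s)) ≤ M ^ 2 := by
  filter_upwards [comp4 hQ hmass hκ m ν herg hν, herg, hν] with s h4 hs hc M hM
  have h1 := rwave hs.1 hM 1
  norm_num at h1
  have e2 : ∫ f : MW, f 0 ^ 2 ∂(κ s) = m s := by
    have h2 := hc 0 0
    rw [sub_zero, cov_zero, mul_one] at h2
    rw [← h2]
    exact integral_congr_ae (Eventually.of_forall fun f => by simp only [sq])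
  rw [h4.2, e2] at h1
  have hm : 0 ≤ m s := by
    rw [← e2]
    exact integral_nonneg fun f => sq_nonneg _
  rcases hm.eq_or_lt with h0 | h0
  · rw [← h0, zero_mul]
    positivity
  · nlinarith

theorem int4 {ρ : Measure MW} [IsProbabilityMeasure ρ]
    (h : ∀ w : ℂ, Integrable (fun f : MW => f w ^ 4) ρ) (a b c d : ℂ) :
    Integrable (fun f : MW => f a * f b * f c * f d) ρ := by
  refine Integrable.mono' ((((h a).norm.add (h b).norm).add (h c).norm).add (h d).norm)
    ((((meas_eval a).mul (meas_eval b)).mul (meas_eval c)).mul (meas_eval d)).aestronglyMeasurable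
    (Eventually.of_forall fun f => ?_)
  show ‖f a * f b * f c * f d‖ ≤ ‖f a ^ 4‖ + ‖f b ^ 4‖ + ‖f c ^ 4‖ + ‖f d ^ 4‖
  rw [norm_mul, norm_mul, norm_mul, norm_pow, norm_pow, norm_pow, norm_pow]
  set x := ‖f a‖
  set y := ‖f b‖
  set z := ‖f c‖
  set v := ‖f d‖
  nlinarith [sq_nonneg (x * y - z * v), sq_nonneg (x ^ 2 - y ^ 2), sq_nonneg (z ^ 2 - v ^ 2),
    sq_nonneg (x ^ 2), sq_nonneg (y ^ 2), sq_nonneg (z ^ 2), sq_nonneg (v ^ 2)]

/-- the covariance of a linear functional of the random wave -/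
noncomputable def vr {k : ℕ} (w : Fin k → ℂ) (t : Fin k → ℝ) : ℝ :=
  ∑ i, ∑ j, t i * t j * J0 ‖w i - w j‖

theorem good_two {ρ : Measure MW} [IsProbabilityMeasure ρ] (hG : Good ρ) {k : ℕ} (w : Fin k → ℂ)
    (t : Fin k → ℝ) : ∫ f, lin w t f ^ 2 ∂ρ = vr w t := by
  have e : ∀ f : MW, lin w t f ^ 2 = ∑ i, ∑ j, (t i * t j) * (f (w i) * f (w j)) := by
    intro f
    unfold lin
    rw [sq, Finset.sum_mul]
    refine Finset.sum_congr rfl fun i _ => ?_
    rw [Finset.mul_sum]
    exact Finset.sum_congr rfl fun j _ => by ring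
  have hi : ∀ i j : Fin k, Integrable (fun f : MW => (t i * t j) * (f (w i) * f (w j))) ρ := by
    intro i j
    refine Integrable.const_mul ?_ _
    have i2 : ∀ a : ℂ, Integrable (fun f : MW => f a ^ 2) ρ := fun a =>
      Pool.Agent.U26.SB.pow_int (meas_eval a) (hG.fin a) (by norm_num)
    refine Integrable.mono' ((i2 (w i)).add (i2 (w j)))
      ((meas_eval (w i)).mul (meas_eval (w j))).aestronglyMeasurable
      (Eventually.of_forall fun f => ?_)
    show ‖f (w i) * f (w j)‖ ≤ f (w i) ^ 2 + f (w j) ^ 2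
    rw [Real.norm_eq_abs, abs_le]
    constructor <;> nlinarith [sq_nonneg (f (w i) + f (w j)), sq_nonneg (f (w i) - f (w j)),
      sq_nonneg (f (w i)), sq_nonneg (f (w j))]
  simp_rw [e]
  rw [integral_finsetSum _ fun i _ => integrable_finsetSum _ fun j _ => hi i j]
  unfold vr
  refine Finset.sum_congr rfl fun i _ => ?_
  rw [integral_finsetSum _ fun j _ => hi i j]
  refine Finset.sum_congr rfl fun j _ => ?_
  rw [integral_const_mul, hG.two]

theorem good_four {ρ : Measure MW} [IsProbabilityMeasure ρ] (hG : Good ρ) {k : ℕ} (w : Fin k → ℂ)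
    (t : Fin k → ℝ) : ∫ f, lin w t f ^ 4 ∂ρ = 3 * vr w t ^ 2 := by
  have e : ∀ f : MW, lin w t f ^ 4 = ∑ i, ∑ j, ∑ l, ∑ p,
      (t i * t j * t l * t p) * (f (w i) * f (w j) * f (w l) * f (w p)) := by
    intro f
    unfold lin
    have e1 : (∑ j, t j * f (w j)) ^ 4 = (∑ j, t j * f (w j)) * ((∑ j, t j * f (w j)) *
        ((∑ j, t j * f (w j)) * ∑ j, t j * f (w j))) := by ring
    rw [e1, Finset.sum_mul]
    refine Finset.sum_congr rfl fun i _ => ?_
    rw [Finset.sum_mul, Finset.mul_sum]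
    refine Finset.sum_congr rfl fun j _ => ?_
    rw [Finset.sum_mul, Finset.mul_sum, Finset.mul_sum]
    refine Finset.sum_congr rfl fun l _ => ?_
    rw [Finset.mul_sum, Finset.mul_sum, Finset.mul_sum]
    exact Finset.sum_congr rfl fun p _ => by ring
  have hi : ∀ i j l p : Fin k, Integrable (fun f : MW => (t i * t j * t l * t p) *
      (f (w i) * f (w j) * f (w l) * f (w p))) ρ := fun i j l p =>
    (int4 hG.fin _ _ _ _).const_mul _
  simp_rw [e]
  rw [integral_finsetSum _ fun i _ => integrable_finsetSum _ fun j _ =>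
    integrable_finsetSum _ fun l _ => integrable_finsetSum _ fun p _ => hi i j l p]
  have e2 : ∀ i, ∫ f : MW, (∑ j, ∑ l, ∑ p, (t i * t j * t l * t p) *
      (f (w i) * f (w j) * f (w l) * f (w p))) ∂ρ =
      ∑ j, ∑ l, ∑ p, (t i * t j * t l * t p) *
        (J0 ‖w i - w j‖ * J0 ‖w l - w p‖ + J0 ‖w i - w l‖ * J0 ‖w j - w p‖ +
          J0 ‖w i - w p‖ * J0 ‖w j - w l‖) := by
    intro i
    rw [integral_finsetSum _ fun j _ => integrable_finsetSum _ fun l _ =>
      integrable_finsetSum _ fun p _ => hi i j l p]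
    refine Finset.sum_congr rfl fun j _ => ?_
    rw [integral_finsetSum _ fun l _ => integrable_finsetSum _ fun p _ => hi i j l p]
    refine Finset.sum_congr rfl fun l _ => ?_
    rw [integral_finsetSum _ fun p _ => hi i j l p]
    refine Finset.sum_congr rfl fun p _ => ?_
    rw [integral_const_mul, hG.four]
  simp_rw [e2]
  set J : Fin k → Fin k → ℝ := fun i j => J0 ‖w i - w j‖ with hJ
  have hV : vr w t ^ 2 = ∑ i, ∑ j, ∑ l, ∑ p, (t i * t j * t l * t p) * (J i j * J l p) := by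
    unfold vr
    rw [sq, Finset.sum_mul]
    refine Finset.sum_congr rfl fun i _ => ?_
    rw [Finset.sum_mul]
    refine Finset.sum_congr rfl fun j _ => ?_
    rw [Finset.mul_sum]
    refine Finset.sum_congr rfl fun l _ => ?_
    rw [Finset.mul_sum]
    exact Finset.sum_congr rfl fun p _ => by simp only [hJ]; ring
  have hV2 : vr w t ^ 2 = ∑ i, ∑ j, ∑ l, ∑ p, (t i * t j * t l * t p) * (J i l * J j p) := by
    rw [hV]
    refine Finset.sum_congr rfl fun i _ => ?_
    rw [Finset.sum_comm]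
    refine Finset.sum_congr rfl fun j _ => ?_
    refine Finset.sum_congr rfl fun l _ => ?_
    exact Finset.sum_congr rfl fun p _ => by ring
  have hV3 : vr w t ^ 2 = ∑ i, ∑ j, ∑ l, ∑ p, (t i * t j * t l * t p) * (J i p * J j l) := by
    rw [hV2]
    refine Finset.sum_congr rfl fun i _ => ?_
    refine Finset.sum_congr rfl fun j _ => ?_
    rw [Finset.sum_comm]
    refine Finset.sum_congr rfl fun l _ => ?_
    exact Finset.sum_congr rfl fun p _ => by ring
  have e3 : 3 * vr w t ^ 2 = vr w t ^ 2 + vr w t ^ 2 + vr w t ^ 2 := by ring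
  rw [e3]
  nth_rewrite 1 [hV]
  nth_rewrite 1 [hV2]
  nth_rewrite 1 [hV3]
  simp only [← Finset.sum_add_distrib]
  refine Finset.sum_congr rfl fun i _ => ?_
  refine Finset.sum_congr rfl fun j _ => ?_
  refine Finset.sum_congr rfl fun l _ => ?_
  exact Finset.sum_congr rfl fun p _ => by simp only [hJ]; ring

/-- components without plane waves -/
theorem good_large {ρ : Measure MW} [IsProbabilityMeasure ρ] (hs : IsStationary ρ) (hG : Good ρ)
    {k : ℕ} (w : Fin k → ℂ) (t : Fin k → ℝ) {M : ℝ} (hM : M ^ 2 < 4 * vr w t) :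
    0 < ρ {f | M < |lin w t f|} := by
  rw [pos_iff_ne_zero]
  intro h0
  have h1 : ∀ᵐ f ∂ρ, |lin w t f| ≤ M := by
    rw [ae_iff]
    simpa only [not_le] using h0
  have h2 := lmoment hs w t h1 1
  norm_num at h2
  rw [good_four hG, good_two hG] at h2
  have hv : 0 < vr w t := by nlinarith [sq_nonneg M]
  nlinarith

end Pool.Agent.U524.SN
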