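import Pool.Agent.U524.SN.Mom
import Pool.Agent.N878.BR.BochC

/-!
# Bounded random waves
-/

set_option autoImplicit false
open MeasureTheory Filter Topology
open scoped ContDiff ENNReal

namespace Pool.Agent.U524.SN

open Pool.Agent.N661.BR

theorem D_scale {f : ℂ → ℝ} (r : ℝ) (v z : ℂ) :
    D v (fun z => f (r • z)) z = r * D v f (r • z) := by
  unfold D
  rw [fderiv_comp_smul]
  rfl

theorem L_scale {f : ℂ → ℝ} (hf : ContDiff ℝ ∞ f) (r : ℝ) (z : ℂ) :
    L (fun z => f (r • z)) z = r ^ 2 * L f (r • z) := by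
  have h1 : ∀ v : ℂ, D v (D v fun z => f (r • z)) z = r ^ 2 * D v (D v f) (r • z) := by
    intro v
    have e : (D v fun z => f (r • z)) = fun z => r * (fun z => D v f (r • z)) z := by
      funext z
      exact D_scale r v z
    have hs : ContDiff ℝ ∞ (D v f) := (hf.fderiv_right (m := ∞) (by simp)).clm_apply contDiff_const
    have hd : DifferentiableAt ℝ (fun z => D v f (r • z)) z :=
      ((hs.comp (contDiff_const_smul r)).differentiable (by simp)) z
    rw [e]
    show fderiv ℝ (fun z => r * (fun z => D v f (r • z)) z) z v = _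
    rw [fderiv_const_mul hd]
    have h2 : D v (fun z => D v f (r • z)) z = r * D v (D v f) (r • z) := D_scale r v z
    show r * D v (fun z => D v f (r • z)) z = _
    rw [h2]
    ring
  unfold L
  rw [h1, h1]
  ring

theorem bd_all {μ : Measure MW} (hs : IsStationary μ) {M : ℝ} (h : ∀ᵐ f : MW ∂μ, |f 0| ≤ M) :
    ∀ᵐ f : MW ∂μ, ∀ z, |f z| ≤ M := by
  have h1 : ∀ n : ℕ, ∀ᵐ f : MW ∂μ, |f (TopologicalSpace.denseSeq ℂ n)| ≤ M := by
    intro n
    have hmp : MeasurePreserving (shift (TopologicalSpace.denseSeq ℂ n)) μ μ :=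
      ⟨meas_shift _, hs _⟩
    have h2 := hmp.quasiMeasurePreserving.ae h
    filter_upwards [h2] with f hf
    have e : (shift (TopologicalSpace.denseSeq ℂ n) f) 0 =
        f (TopologicalSpace.denseSeq ℂ n) := by
      show f (0 + _) = _
      rw [zero_add]
    rwa [e] at hf
  filter_upwards [ae_all_iff.2 h1] with f hf
  intro z
  have hc : IsClosed {z : ℂ | |f z| ≤ M} := isClosed_le f.2.1.continuous.abs continuous_const
  have hd : Dense {z : ℂ | |f z| ≤ M} :=
    (TopologicalSpace.denseRange_denseSeq ℂ).mono (by rintro _ ⟨n, rfl⟩; exact hf n)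
  have h3 := hd.closure_eq
  rw [hc.closure_eq] at h3
  have h4 : z ∈ {z : ℂ | |f z| ≤ M} := h3 ▸ Set.mem_univ z
  exact h4

theorem mom {μ : Measure MW} (hs : IsStationary μ) (k : ℕ) (w : ℂ) :
    ∫ f : MW, f w ^ k ∂μ = ∫ f : MW, f 0 ^ k ∂μ := by
  have h := integral_map (μ := μ) (meas_shift w).aemeasurable (f := fun f : MW => f 0 ^ k)
    ((meas_eval 0).pow_const k).aestronglyMeasurable
  rw [hs w] at h
  rw [h]
  refine integral_congr_ae (Eventually.of_forall fun f => ?_)
  have e : (shift w f) 0 = f w := by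
    show f (0 + w) = f w
    rw [zero_add]
  show f w ^ k = (shift w f) 0 ^ k
  rw [e]

/-- **Bounded random waves.** -/
theorem rwave {μ : Measure MW} [IsProbabilityMeasure μ] (hs : IsStationary μ) {M : ℝ}
    (h : ∀ᵐ f : MW ∂μ, |f 0| ≤ M) (k : ℕ) :
    (2 * k + 2 : ℝ) * ∫ f : MW, f 0 ^ (2 * k + 2) ∂μ ≤
      (2 * k + 1 : ℝ) * (M ^ 2 * ∫ f : MW, f 0 ^ (2 * k) ∂μ) := by
  have hall := bd_all hs h
  obtain ⟨φ, hφ, hc, hpos, hφ0⟩ : ∃ φ : ℂ → ℝ, ContDiff ℝ ∞ φ ∧ HasCompactSupport φ ∧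
      0 < ∫ z, φ z ∧ ∀ z, 0 ≤ φ z := by
    let b : ContDiffBump (0 : ℂ) := ⟨1 / 2, 1, by norm_num, by norm_num⟩
    exact ⟨fun z => b z, b.contDiff, b.hasCompactSupport, b.integral_pos, fun z => b.nonneg⟩
  have iφ : Integrable φ := hφ.continuous.integrable_of_hasCompactSupport hc
  -- joint integrability
  have hJ : ∀ (r : ℝ) (k : ℕ), Integrable (fun p : MW × ℂ => φ p.2 * p.1 (r • p.2) ^ k)
      (μ.prod volume) := by
    intro r k
    have hm : Measurable (fun p : MW × ℂ => φ p.2 * p.1 (r • p.2) ^ k) := by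
      have h1 : Measurable fun p : MW × ℂ => (r • p.2, p.1) :=
        (measurable_snd.const_smul r).prodMk measurable_fst
      have h2 : Measurable fun p : MW × ℂ => p.1 (r • p.2) :=
        Pool.Agent.N878.BR.meas_unc.comp h1
      exact (hφ.continuous.measurable.comp measurable_snd).mul (h2.pow_const k)
    have hd : Integrable (fun p : MW × ℂ => M ^ k * φ p.2) (μ.prod volume) :=
      (iφ.comp_snd μ).const_mul _
    refine hd.mono' hm.aestronglyMeasurable ?_
    have h3 : ∀ᵐ p : MW × ℂ ∂(μ.prod volume), ∀ z, |p.1 z| ≤ M :=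
      Measure.quasiMeasurePreserving_fst.ae hall
    filter_upwards [h3] with p hp
    rw [Real.norm_eq_abs, abs_mul, abs_pow, abs_of_nonneg (hφ0 _), mul_comm]
    exact mul_le_mul_of_nonneg_right (pow_le_pow_left₀ (abs_nonneg _) (hp _) k) (hφ0 _)
  have hI : ∀ (r : ℝ) (k : ℕ), ∫ f : MW, (∫ z, φ z * f (r • z) ^ k) ∂μ =
      (∫ z, φ z) * ∫ f : MW, f 0 ^ k ∂μ := by
    intro r k
    rw [integral_integral_swap (f := fun (f : MW) (z : ℂ) => φ z * f (r • z) ^ k) (hJ r k)]
    rw [← integral_mul_const]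
    congr 1
    funext z
    rw [integral_const_mul, mom hs]
  have hK : ∀ (r : ℝ) (k : ℕ), Integrable (fun f : MW => ∫ z, φ z * f (r • z) ^ k) μ :=
    fun r k => (hJ r k).integral_prod_left
  set A := ∫ z, φ z with hA
  have key : (2 * k + 2 : ℝ) * (A * ∫ f : MW, f 0 ^ (2 * k + 2) ∂μ) ≤
      (2 * k + 1 : ℝ) * (M ^ 2 * (A * ∫ f : MW, f 0 ^ (2 * k) ∂μ)) := by
    refine le_of_forall_pos_le_add fun ε hε => ?_
    obtain ⟨lam, h1, hlam⟩ := ((moment isOpen_univ k (ρ := fun _ => 1) contDiffOn_const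
      (fun _ _ => one_pos) hφ hc (Set.subset_univ _) hφ0 M hε).and
        (eventually_gt_atTop 0)).exists
    have hr2 : √lam ^ 2 = lam := Real.sq_sqrt hlam.le
    have h2 : ∀ᵐ f : MW ∂μ, (2 * k + 2 : ℝ) * (∫ z, φ z * f (√lam • z) ^ (2 * k + 2)) ≤
        (2 * k + 1 : ℝ) * (M ^ 2 * ∫ z, φ z * f (√lam • z) ^ (2 * k)) + ε := by
      filter_upwards [hall] with f hf
      have h3 := h1 (fun z => f (√lam • z)) (f.2.1.comp (contDiff_const_smul _)).contDiffOn
        (fun z _ => by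
          rw [L_scale f.2.1, hr2]
          have h4 : L f (√lam • z) + f (√lam • z) = 0 := f.2.2 _
          have h5 : L f (√lam • z) = - f (√lam • z) := by linarith
          show lam * L f (√lam • z) + lam * (1 * f (√lam • z)) = 0
          rw [h5]
          ring) (fun z _ => hf _)
      simpa only [one_mul] using h3
    have i1 : Integrable (fun f : MW => (2 * k + 1 : ℝ) *
        (M ^ 2 * ∫ z, φ z * f (√lam • z) ^ (2 * k)) + ε) μ :=
      (((hK (√lam) (2 * k)).const_mul (M ^ 2)).const_mul _).add (integrable_const ε)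
    have h6 := integral_mono_ae ((hK (√lam) (2 * k + 2)).const_mul (2 * k + 2 : ℝ)) i1 h2
    rw [integral_add (((hK (√lam) (2 * k)).const_mul (M ^ 2)).const_mul _) (integrable_const ε),
      integral_const_mul, integral_const_mul, integral_const_mul, hI, hI, integral_const,
      probReal_univ, one_smul] at h6
    exact h6
  have h7 : A * ((2 * k + 2 : ℝ) * ∫ f : MW, f 0 ^ (2 * k + 2) ∂μ) ≤
      A * ((2 * k + 1 : ℝ) * (M ^ 2 * ∫ f : MW, f 0 ^ (2 * k) ∂μ)) := by
    calc A * ((2 * k + 2 : ℝ) * ∫ f : MW, f 0 ^ (2 * k + 2) ∂μ) =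
        (2 * k + 2 : ℝ) * (A * ∫ f : MW, f 0 ^ (2 * k + 2) ∂μ) := by ring
      _ ≤ _ := key
      _ = _ := by ring
  exact le_of_mul_le_mul_left h7 hpos

end Pool.Agent.U524.SN
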