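import Pool.Agent.U524.SN.Main

/-! Quantum ergodic sequences. -/

set_option autoImplicit false
open MeasureTheory Filter Topology Complex Set ProbabilityTheory
open scoped ContDiff ENNReal

namespace Pool.Agent.U524.SN

open Pool.Agent.W745.RW (lap TF)
open Pool.Agent.TH294.RG Pool.Agent.TH294.RS

noncomputable section

/-- the uniform probability measure on `(0, 2π]` -/
def mu0 : Measure ℝ :=
  ENNReal.ofReal (1 / (2 * Real.pi)) • volume.restrict (Set.Ioc 0 (2 * Real.pi))

lemma tp : (0 : ℝ) < 2 * Real.pi := by positivity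

lemma int_mu0 {E : Type*} [NormedAddCommGroup E] [NormedSpace ℝ E] (f : ℝ → E) :
    ∫ x, f x ∂mu0 = (1 / (2 * Real.pi)) • ∫ x in (0 : ℝ)..(2 * Real.pi), f x := by
  unfold mu0
  rw [integral_smul_measure, intervalIntegral.integral_of_le tp.le,
    ENNReal.toReal_ofReal (by positivity)]

instance prob0 : IsProbabilityMeasure mu0 := by
  refine ⟨?_⟩
  unfold mu0
  simp only [Measure.smul_apply, Measure.restrict_apply MeasurableSet.univ, Set.univ_inter,
    Real.volume_Ioc, sub_zero, smul_eq_mul]
  rw [← ENNReal.ofReal_mul (by positivity)]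
  have := tp.ne'
  rw [one_div_mul_cancel this, ENNReal.ofReal_one]

/-- the constant kernel -/
def unif : Kernel ℂ ℝ := Kernel.const ℂ mu0

instance mark0 : IsMarkovKernel unif := by unfold unif; infer_instance

lemma cm_unif (k : ℕ) : cm ea mu0 k = if k = 0 then 1 else 0 := by
  unfold cm
  by_cases hk : k = 0
  · simp [hk]
  · rw [if_neg hk, int_mu0]
    have e1 : ∀ x : ℝ, ea x ^ k = I ^ k * Complex.exp ((-(k : ℂ) * I) * x) := by
      intro x
      unfold ea
      rw [mul_pow, ← Complex.exp_nat_mul]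
      congr 2; ring
    simp only [e1]
    have hc : (-(k : ℂ) * I) ≠ 0 := by
      simp [hk]
    rw [intervalIntegral.integral_const_mul, integral_exp_mul_complex hc]
    have e2 : Complex.exp (-(k : ℂ) * I * ((2 * Real.pi : ℝ) : ℂ)) = 1 := by
      rw [Complex.exp_eq_one_iff]
      exact ⟨-(k : ℤ), by push_cast; ring⟩
    rw [e2]
    simp

lemma MM_unif (k : ℕ) (z : ℂ) : MM (fun _ => 1) ea unif k z = if k = 0 then 1 else 0 := by
  simp only [MM, unif, Kernel.const_apply, cm_unif, ofReal_one, one_mul]

lemma par_unif : par ea mu0 = 0 := by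
  unfold par
  rw [measureReal_def]
  have hac : mu0 ≪ (volume : Measure ℝ) := by
    unfold mu0
    exact (Measure.absolutelyContinuous_of_le Measure.restrict_le_self).smul_left _
  have hS : MeasurableSet (PS ea) := PS_meas ea_meas
  have h0 : (mu0.prod mu0) (PS ea) = 0 := by
    rw [Measure.measure_prod_null hS]
    refine Eventually.of_forall fun x => ?_
    apply hac
    refine Set.Countable.measure_zero ?_ _
    have h1 : (Prod.mk x ⁻¹' (PS ea)) ⊆ Set.range fun k : ℤ => x - k * Real.pi := by
      intro y hy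
      rw [ea_par] at hy
      have h2 : Real.sin (x - y) = 0 := hy
      obtain ⟨k, hk⟩ := Real.sin_eq_zero_iff.1 h2
      exact ⟨k, by
        show x - k * Real.pi = y
        linarith⟩
    exact (Set.countable_range _).mono h1
  rw [h0]
  rfl

/-- Quantum ergodic sequences exceed every number below two on every open set. -/
theorem qe_sup {Ω : Set ℂ} {a : ℂ → ℝ} {h : ℕ → ℝ} {u : ℕ → ℂ → ℝ}
    (H : RawG Ω a h u (MM (fun _ => 1) ea unif)) {U : Set ℂ} (hU : IsOpen U) (hUΩ : U ⊆ Ω)
    (hne : U.Nonempty) {M : ℝ} (hM : M < 2) : ∀ᶠ n in atTop, ∃ z ∈ U, M < |u n z| := by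
  by_contra hc
  rw [not_eventually] at hc
  have hf : ∃ᶠ n in atTop, ∀ z ∈ U, |u n z| ≤ M := by
    refine hc.mono fun n hn z hz => ?_
    by_contra h
    rw [not_le] at h
    exact hn ⟨z, hz, h⟩
  have h1 := main ea_meas ea_norm (fun K hK _ => by
    have hfin : IsFiniteMeasure (volume.restrict K) :=
      ⟨by rw [Measure.restrict_apply_univ]; exact hK.measure_lt_top⟩
    exact memLp_const 1) H hU hUΩ hf
  have hM0 : 0 ≤ M := by
    obtain ⟨n, hn⟩ := hf.exists
    obtain ⟨z, hz⟩ := hne
    exact (abs_nonneg _).trans (hn z hz)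
  have hne' : (volume.restrict U) ≠ 0 := by
    rw [Ne, Measure.restrict_eq_zero]
    exact (hU.measure_pos volume hne).ne'
  have : (ae (volume.restrict U)).NeBot := ae_neBot.2 hne'
  obtain ⟨z, hz⟩ := h1.exists
  have e : par ea (unif z) = 0 := by
    unfold unif
    rw [Kernel.const_apply]
    exact par_unif
  rw [e] at hz
  nlinarith

end

end Pool.Agent.U524.SN
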